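import Pool.Agent.H789R2.AN.Man

set_option autoImplicit false
set_option linter.unusedSectionVars false

open Filter Topology Set Metric
open scoped Manifold ContDiff

namespace Pool.Agent.Helper905_AJ

open Pool.Agent.H721R2 Pool.Agent.H789R2.AN

variable {X : Type*} [MetricSpace X]

theorem geo_tendsto (c : ℝ) : Tendsto (fun n : ℕ => c * (1 / 2 : ℝ) ^ n) atTop (𝓝 0) := by
  have := (tendsto_pow_atTop_nhds_zero_of_lt_one (by norm_num : (0:ℝ) ≤ 1 / 2)
    (by norm_num)).const_mul c
  simpa using this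

theorem geo_small (c : ℝ) {e : ℝ} (he : 0 < e) : ∃ k : ℕ, ∀ n ≥ k, c * (1 / 2 : ℝ) ^ n < e :=
  eventually_atTop.mp ((tendsto_order.mp (geo_tendsto c)).2 e he)

theorem unif_iter [CompactSpace X] (g : X ≃ₜ X) (N : ℕ) {ε : ℝ} (hε : 0 < ε) : ∃ η > 0,
    ∀ k ≤ N, ∀ x y : X, dist x y < η → dist (g^[k] x) (g^[k] y) < ε := by
  induction N with
  | zero =>
    refine ⟨ε, hε, fun k hk x y hxy => ?_⟩
    obtain rfl : k = 0 := by omega
    exact hxy
  | succ N ih =>
    obtain ⟨η, hη, h1⟩ := ih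
    have hu : UniformContinuous (g^[N + 1]) :=
      CompactSpace.uniformContinuous_of_continuous (g.continuous.iterate _)
    obtain ⟨η', hη', h2⟩ := Metric.uniformContinuous_iff.mp hu ε hε
    refine ⟨min η η', lt_min hη hη', fun k hk x y hxy => ?_⟩
    rcases Nat.lt_or_ge N k with h3 | h3
    · obtain rfl : k = N + 1 := by omega
      exact h2 (hxy.trans_le (min_le_right _ _))
    · exact h1 k h3 x y (hxy.trans_le (min_le_left _ _))

/-- Expansivity. -/
theorem expans {g : X ≃ₜ X} {c : ℝ} (h : LP g c) {x y : X}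
    (h1 : ∀ n : ℕ, dist (g^[n] x) (g^[n] y) ≤ c)
    (h2 : ∀ n : ℕ, dist (g.symm^[n] x) (g.symm^[n] y) ≤ c) : x = y := by
  have key : ∀ m : ℕ, dist x y ≤ c * (1 / 2) ^ m := by
    intro m
    have h3 : SR g c (g.symm^[m] x) (g.symm^[m] y) := by
      intro k
      rcases le_total m k with hk | hk
      · obtain ⟨j, rfl⟩ := Nat.exists_eq_add_of_le hk
        rw [Nat.add_comm m j, Function.iterate_add_apply, iterR, Function.iterate_add_apply, iterR]
        exact h1 j
      · obtain ⟨j, rfl⟩ := Nat.exists_eq_add_of_le hk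
        rw [Function.iterate_add_apply g.symm, iterR, Function.iterate_add_apply g.symm, iterR]
        exact h2 j
    have h4 := h.cS _ _ h3 m
    rwa [iterR, iterR] at h4
  exact dist_le_zero.mp (ge_of_tendsto' (geo_tendsto c) key)

/-- **Closing lemma**: an orbit segment that almost returns is shadowed by a periodic point. -/
theorem closing_seg [CompactSpace X] {E : Type*} [NormedAddCommGroup E] [NormedSpace ℝ E]
    (S : HypSys X E) {c : ℝ} (hc : LP S.g c) {ε : ℝ} (hε : 0 < ε) :
    ∃ δ > 0, ∀ (n : ℕ) (z : X), 1 ≤ n → dist (S.g^[n] z) z ≤ δ →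
      ∃ p, S.g^[n] p = p ∧ ∀ k < n, dist (S.g^[k] p) (S.g^[k] z) ≤ ε := by
  obtain ⟨ε₀, hε₀, hsh⟩ := S.shadowing
  have hK := S.one_le_K
  have hK0 : 0 < S.K := by linarith
  have hc0 := hc.c_pos
  set δ := min ε₀ (min (ε / (8 * S.K)) (c / (16 * S.K))) with hδ
  have hδ0 : 0 < δ := lt_min hε₀ (lt_min (by positivity) (by positivity))
  have h1 : 8 * S.K * δ ≤ ε := by
    have : δ ≤ ε / (8 * S.K) := (min_le_right _ _).trans (min_le_left _ _)
    rw [le_div_iff₀ (by positivity)] at this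
    linarith
  have h2 : 8 * S.K * δ + 8 * S.K * δ ≤ c := by
    have : δ ≤ c / (16 * S.K) := (min_le_right _ _).trans (min_le_right _ _)
    rw [le_div_iff₀ (by positivity)] at this
    linarith
  refine ⟨δ, hδ0, fun q z hq1 hzq => ?_⟩
  have hq0 : (0 : ℤ) < q := by exact_mod_cast hq1
  let x : ℤ → X := fun n => S.g^[(n % q).toNat] z
  have hx : ∀ n, dist (S.g (x n)) (x (n + 1)) ≤ δ := by
    intro n
    have h0 : 0 ≤ n % q := Int.emod_nonneg n hq0.ne'
    have h1 : n % q < q := Int.emod_lt_of_pos n hq0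
    show dist (S.g (S.g^[(n % q).toNat] z)) (S.g^[((n + 1) % q).toNat] z) ≤ δ
    rw [← Function.iterate_succ_apply' S.g]
    by_cases h2 : n % q + 1 < q
    · have h3 : (n + 1) % q = n % q + 1 := by
        rw [Int.add_emod]
        have h5 : (1 : ℤ) % q = 1 := Int.emod_eq_of_lt (by norm_num) (by omega)
        rw [h5]
        exact Int.emod_eq_of_lt (by omega) h2
      rw [h3]
      have h4 : (n % q + 1).toNat = (n % q).toNat + 1 := by omega
      rw [h4, dist_self]
      exact hδ0.le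
    · have h3 : n % q = q - 1 := by omega
      have h4 : (n + 1) % q = 0 := by
        have : n + 1 = q * (n / q) + q := by
          have := Int.mul_ediv_add_emod n q
          omega
        rw [this]
        simp
      rw [h4, h3]
      have h5 : ((q : ℤ) - 1).toNat.succ = q := by omega
      rw [h5]
      simp only [Int.toNat_zero, Function.iterate_zero, id_eq]
      exact hzq
  have hm : ∀ n, x (n + q) = x n := by
    intro n
    show S.g^[((n + q) % q).toNat] z = S.g^[(n % q).toNat] z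
    rw [Int.add_emod_right]
  obtain ⟨y, hy1, hy2⟩ := hsh δ (min_le_left _ _) x hx
  have hy1' : ∀ n, y (n + 1 + q) = S.g (y (n + q)) := by
    intro n
    rw [← hy1 (n + q)]
    congr 1
    ring
  have hww : ∀ n, dist (y n) (y (n + q)) ≤ c := by
    intro n
    have h3 := hy2 n
    have h4 := hy2 (n + q)
    rw [hm] at h4
    have h5 := dist_triangle_right (y n) (y (n + q)) (x n)
    linarith
  have e1 : ∀ k : ℕ, S.g^[k] (y 0) = y k := fun k => (S.orbit_nat y hy1 k).symm
  have e2 : ∀ k : ℕ, S.g^[k] (y q) = y (k + q) := fun k => by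
    have := S.orbit_nat (fun n => y (n + q)) hy1' k
    simp only [zero_add] at this
    exact this.symm
  have e3 : ∀ k : ℕ, S.g.symm^[k] (y 0) = y (-k) := fun k => (S.orbit_neg y hy1 k).symm
  have e4 : ∀ k : ℕ, S.g.symm^[k] (y q) = y (-k + q) := fun k => by
    have := S.orbit_neg (fun n => y (n + q)) hy1' k
    simp only [zero_add] at this
    exact this.symm
  have h3 : y 0 = y q := by
    apply expans hc
    · intro n; rw [e1, e2]; exact hww _
    · intro n; rw [e3, e4]; exact hww _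
  refine ⟨y 0, ?_, fun k hk => ?_⟩
  · rw [e1]; exact h3.symm
  · rw [e1]
    have h6 : x k = S.g^[k] z := by
      show S.g^[((k : ℤ) % q).toNat] z = _
      rw [Int.emod_eq_of_lt (by omega) (by omega)]
      simp
    rw [← h6]
    exact (hy2 k).trans h1

theorem iterH_iter (f : X ≃ₜ X) (N k : ℕ) (x : X) : (iterHomeo f N)^[k] x = f^[N * k] x := by
  rw [Function.iterate_mul]; rfl

theorem iterH_symm_iter (f : X ≃ₜ X) (N k : ℕ) (x : X) :
    (iterHomeo f N).symm^[k] x = f.symm^[N * k] x := by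
  rw [Function.iterate_mul]; rfl

theorem iterH_symm (f : X ≃ₜ X) (N : ℕ) : (iterHomeo f N).symm = iterHomeo f.symm N := by
  ext x; rfl

/-- `WS` for a homeomorphism and for an iterate. -/
theorem WS_iterH [CompactSpace X] (f : X ≃ₜ X) {N : ℕ} (hN : 1 ≤ N) (x y : X) :
    WS (iterHomeo f N) x y ↔ WS f x y := by
  constructor
  · intro h
    refine tendsto_order.mpr ⟨fun a ha => Eventually.of_forall fun n =>
      lt_of_lt_of_le ha dist_nonneg, fun a ha => ?_⟩
    obtain ⟨η, hη, h1⟩ := unif_iter f N ha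
    obtain ⟨m, hm⟩ := h.eventually_lt hη
    filter_upwards [eventually_ge_atTop (N * m)] with n hn
    have hnn : n = n % N + N * (n / N) := (Nat.mod_add_div n N).symm
    have h2 : m ≤ n / N := by
      rw [Nat.le_div_iff_mul_le (by omega)]
      rwa [Nat.mul_comm]
    have h3 := hm (n / N) h2
    rw [iterH_iter, iterH_iter] at h3
    have h4 := h1 (n % N) (Nat.mod_lt _ (by omega)).le _ _ h3
    rw [← Function.iterate_add_apply, ← Function.iterate_add_apply, ← hnn] at h4
    exact h4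
  · intro h
    have h1 : Tendsto (fun k : ℕ => N * k) atTop atTop :=
      tendsto_id.const_mul_atTop' (by omega)
    have h2 : Tendsto (fun n : ℕ => dist (f^[n] x) (f^[n] y)) atTop (𝓝 0) := h
    have h3 := h2.comp h1
    refine h3.congr fun k => ?_
    simp only [Function.comp_apply]
    rw [iterH_iter, iterH_iter]

theorem att_iterH [CompactSpace X] {f : X ≃ₜ X} {A : Set X} (hA : IsAtt f A) {N : ℕ}
    (hN : 1 ≤ N) : IsAtt (iterHomeo f N) A where
  closed := hA.closed
  nonempty := hA.nonempty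
  inv := fun x => inv_iter hA.inv N x
  sat := fun x hx y hxy => hA.sat x hx y (by
    rw [iterH_symm] at hxy
    exact (WS_iterH f.symm hN x y).mp hxy)

/-- A periodic point close to an attractor belongs to it. -/
theorem per_mem_att {g : X ≃ₜ X} {c : ℝ} (h : LP g c) : ∃ r > 0, ∀ A, IsAtt g A → ∀ z ∈ A,
    ∀ (p : X) (n : ℕ), 1 ≤ n → g^[n] p = p → dist p z < r → p ∈ A := by
  obtain ⟨r, hr, hnear⟩ := h.near
  refine ⟨r, hr, fun A hA z hz p n hn hp hpz => ?_⟩
  obtain ⟨z', hz', hs⟩ := hnear A hA z hz p hpz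
  rw [← hA.closed.closure_eq, Metric.mem_closure_iff]
  intro ε hε
  obtain ⟨k, hk⟩ := geo_small c hε
  refine ⟨g^[n * k] z', (inv_iter hA.inv _ z').mpr hz', ?_⟩
  have h1 := h.cS _ _ hs (n * k)
  have h2 : g^[n * k] p = p := by
    rw [Function.iterate_mul]
    exact Function.iterate_fixed hp k
  rw [h2] at h1
  exact h1.trans_lt (hk _ (Nat.le_mul_of_pos_left k (by omega)))

section man

variable {E₀ : Type*} [NormedAddCommGroup E₀] [NormedSpace ℝ E₀] [FiniteDimensional ℝ E₀]
    {M : Type*} [MetricSpace M] [CompactSpace M] [ChartedSpace E₀ M] [IsManifold 𝓘(ℝ, E₀) 1 M]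
    {F : Type*} [NormedAddCommGroup F] [NormedSpace ℝ F]

/-- `exists_sys` for all large iterates -/
theorem exists_sysN {e : M → F} (hiso : ∀ x y, dist x y = ‖e x - e y‖)
    (he : ContMDiff 𝓘(ℝ, E₀) 𝓘(ℝ, F) 1 e) (hinj : ∀ x, Function.Injective (dm E₀ e x))
    (f : Diffeomorph 𝓘(ℝ, E₀) 𝓘(ℝ, E₀) M M 1)
    (Es Eu : ∀ x : M, Submodule ℝ (TangentSpace 𝓘(ℝ, E₀) x)) (h : IsAnosov f Es Eu) :
    ∃ n : ℕ, 1 ≤ n ∧ ∃ S : HypSys M F, S.g = iterHomeo f.toHomeomorph n := by
  obtain ⟨C, a, b, Ls, Lu, hE⟩ := eanosov_of_isAnosov e he hinj f Es Eu h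
  obtain ⟨K, hK, hang⟩ := hE.angle he hinj
  have t1 : Tendsto (fun n : ℕ => K * (C * a ^ n)) atTop (𝓝 0) := by
    have := ((tendsto_pow_atTop_nhds_zero_of_lt_one hE.a_pos.le hE.a_lt).const_mul C).const_mul K
    simpa using this
  have t2 : Tendsto (fun n : ℕ => K * (C * b ^ n)) atTop (𝓝 0) := by
    have := ((tendsto_pow_atTop_nhds_zero_of_lt_one hE.b_pos.le hE.b_lt).const_mul C).const_mul K
    simpa using this
  obtain ⟨n, ⟨h1, h2⟩, h3⟩ := (((tendsto_order.mp t1).2 (1 / 16) (by norm_num)).and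
    ((tendsto_order.mp t2).2 (1 / 16) (by norm_num))).and (eventually_ge_atTop 1) |>.exists
  obtain ⟨S, hS, -⟩ := exists_hypSys' hiso he hinj hE K hK hang n h1.le h2.le
  exact ⟨n, h3, S, hS⟩

end man

end Pool.Agent.Helper905_AJ
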