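import Pool.Agent.Helper905_AJ.Base

set_option autoImplicit false
set_option linter.unusedSectionVars false

open Filter Topology Set Metric
open scoped Manifold ContDiff

namespace Pool.Agent.Helper905_AJ

open Pool.Agent.H721R2 Pool.Agent.H789R2.AN

section def'

variable {E : Type*} [NormedAddCommGroup E] [NormedSpace ℝ E]
  {M : Type*} [TopologicalSpace M] [ChartedSpace E M]

/-- In the charts of `M` (modelled on `E`) the function `φ` has modulus of continuity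
`κ / |log t|`: each point of `M` has a neighbourhood in which `|φ x - φ y| |log ‖x - y‖| ≤ κ`, where
`‖x - y‖` is measured in the chart at that point. -/
def LogMod (E : Type*) [NormedAddCommGroup E] [NormedSpace ℝ E]
    {M : Type*} [TopologicalSpace M] [ChartedSpace E M] (κ : ℝ) (φ : M → ℝ) : Prop :=
  ∀ x₀ : M, ∃ U ∈ 𝓝 x₀, ∀ x ∈ U, ∀ y ∈ U,
    |φ x - φ y| * |Real.log ‖extChartAt 𝓘(ℝ, E) x₀ x - extChartAt 𝓘(ℝ, E) x₀ y‖| ≤ κ

/-- In the charts of `M` the function `φ` is locally Hölder continuous. -/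
def IsHolder (E : Type*) [NormedAddCommGroup E] [NormedSpace ℝ E]
    {M : Type*} [TopologicalSpace M] [ChartedSpace E M] (φ : M → ℝ) : Prop :=
  ∃ α : ℝ, 0 < α ∧ ∀ x₀ : M, ∃ C : ℝ, ∃ U ∈ 𝓝 x₀, ∀ x ∈ U, ∀ y ∈ U,
    |φ x - φ y| ≤ C * ‖extChartAt 𝓘(ℝ, E) x₀ x - extChartAt 𝓘(ℝ, E) x₀ y‖ ^ α

/-- Hölder functions have modulus of continuity `κ / |log t|` for every `κ > 0`. -/
theorem IsHolder.logMod {φ : M → ℝ} (h : IsHolder E φ) {ε : ℝ} (hε : 0 < ε) : LogMod E ε φ := by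
  obtain ⟨α, hα, h⟩ := h
  intro x₀
  obtain ⟨C, U, hU, hC⟩ := h x₀
  have h1 := tendsto_log_mul_rpow_nhdsGT_zero hα
  have h2 : Tendsto (fun t => |C| * |Real.log t * t ^ α|) (𝓝[>] 0) (𝓝 0) := by
    have := (h1.abs).const_mul |C|
    simpa using this
  have h3 := (tendsto_order.mp h2).2 ε hε
  rw [eventually_nhdsWithin_iff, Metric.eventually_nhds_iff] at h3
  obtain ⟨τ, hτ, h3⟩ := h3
  have hcont : ContinuousAt (extChartAt 𝓘(ℝ, E) x₀) x₀ := continuousAt_extChartAt x₀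
  have hV := hcont.preimage_mem_nhds (Metric.ball_mem_nhds _ (half_pos hτ))
  refine ⟨U ∩ (extChartAt 𝓘(ℝ, E) x₀) ⁻¹' Metric.ball (extChartAt 𝓘(ℝ, E) x₀ x₀) (τ / 2),
    inter_mem hU hV, ?_⟩
  rintro x ⟨hx, hx'⟩ y ⟨hy, hy'⟩
  set t := ‖extChartAt 𝓘(ℝ, E) x₀ x - extChartAt 𝓘(ℝ, E) x₀ y‖ with ht
  have ht0 : 0 ≤ t := norm_nonneg _
  have htτ : t < τ := by
    have h4 : dist (extChartAt 𝓘(ℝ, E) x₀ x) (extChartAt 𝓘(ℝ, E) x₀ x₀) < τ / 2 := hx'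
    have h5 : dist (extChartAt 𝓘(ℝ, E) x₀ y) (extChartAt 𝓘(ℝ, E) x₀ x₀) < τ / 2 := hy'
    rw [ht, ← dist_eq_norm]
    have := dist_triangle_right (extChartAt 𝓘(ℝ, E) x₀ x) (extChartAt 𝓘(ℝ, E) x₀ y)
      (extChartAt 𝓘(ℝ, E) x₀ x₀)
    linarith
  rcases ht0.eq_or_lt with h0 | h0
  · rw [← h0]; simp [hε.le]
  · have h4 := h3 (y := t) (by rw [Real.dist_eq, sub_zero, abs_of_pos h0]; exact htτ) h0
    have h5 := hC x hx y hy
    rw [← ht] at h5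
    have h6 : |φ x - φ y| * |Real.log t| ≤ |C| * t ^ α * |Real.log t| := by
      refine mul_le_mul_of_nonneg_right (h5.trans ?_) (abs_nonneg _)
      exact mul_le_mul_of_nonneg_right (le_abs_self C) (by positivity)
    rw [abs_mul, abs_of_pos (Real.rpow_pos_of_pos h0 α)] at h4
    refine h6.trans (le_of_eq_of_le ?_ h4.le)
    ring

end def'

section chart

variable {E₀ : Type*} [NormedAddCommGroup E₀] [NormedSpace ℝ E₀] [FiniteDimensional ℝ E₀]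
  {M : Type*} [TopologicalSpace M] [ChartedSpace E₀ M] [IsManifold 𝓘(ℝ, E₀) 1 M]
  {F : Type*} [NormedAddCommGroup F] [NormedSpace ℝ F]

/-- Charts are locally Lipschitz in terms of an immersion. -/
theorem chart_le (e : M → F) (he : ContMDiff 𝓘(ℝ, E₀) 𝓘(ℝ, F) 1 e)
    (hinj : ∀ x, Function.Injective (dm E₀ e x)) (x₀ : M) :
    ∃ C : ℝ, 1 ≤ C ∧ ∃ W ∈ 𝓝 x₀, W ⊆ (extChartAt 𝓘(ℝ, E₀) x₀).source ∧ ∀ x ∈ W, ∀ y ∈ W,
      ‖extChartAt 𝓘(ℝ, E₀) x₀ x - extChartAt 𝓘(ℝ, E₀) x₀ y‖ ≤ C * ‖e x - e y‖ := by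
  set φ := extChartAt 𝓘(ℝ, E₀) x₀ with hφ
  set p₀ := φ x₀ with hp₀
  set L := fderiv ℝ (hatMap e x₀) p₀ with hL
  have hx₀ : x₀ ∈ φ.source := mem_extChartAt_source x₀
  have hLinj : Function.Injective L := by
    obtain ⟨A, hA⟩ := isInvertible_mfderiv_extChartAt (I := 𝓘(ℝ, E₀)) hx₀
    intro a b hab
    have h1 : ∀ w : E₀, dm E₀ e x₀ (A.symm w) = L w := by
      intro w
      have h2 := hatMap_mfderiv e he x₀ x₀ hx₀ (A.symm w)
      rw [h2, ← hφ]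
      have h3 : dm E₀ φ x₀ (A.symm w) = w := by
        show mfderiv 𝓘(ℝ, E₀) 𝓘(ℝ, E₀) φ x₀ (A.symm w) = w
        rw [← hA]; exact A.apply_symm_apply w
      rw [h3]
    have h4 : A.symm a = A.symm b := by
      apply hinj x₀
      exact (h1 a).trans (hab.trans (h1 b).symm)
    exact A.symm.injective h4
  obtain ⟨K, hK0, hK⟩ := (LinearMap.injective_iff_antilipschitz (L : E₀ →ₗ[ℝ] F)).mp hLinj
  set κ : ℝ := (K : ℝ) with hκ
  have hκ0 : 0 < κ := hK0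
  have hLlow : ∀ w : E₀, ‖w‖ ≤ κ * ‖L w‖ := fun w =>
    ZeroHomClass.bound_of_antilipschitz (L : E₀ →ₗ[ℝ] F) hK w
  obtain ⟨r, hr, a1, a2, a3⟩ := hatMap_local e he x₀ (1 / (4 * κ)) (by positivity)
  have hpull : φ.source ∩ φ ⁻¹' Metric.ball p₀ r ∈ 𝓝 x₀ := by
    have h1 : ContinuousAt φ x₀ := continuousAt_extChartAt x₀
    exact inter_mem ((isOpen_extChartAt_source (I := 𝓘(ℝ, E₀)) x₀).mem_nhds hx₀)
      (h1.preimage_mem_nhds (Metric.ball_mem_nhds _ hr))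
  refine ⟨max 1 (2 * κ), le_max_left _ _, _, hpull, inter_subset_left, ?_⟩
  rintro x ⟨hxs, hxb⟩ y ⟨hys, hyb⟩
  have ex : e x = hatMap e x₀ (φ x) := by
    show e x = e (φ.symm (φ x)); rw [φ.left_inv hxs]
  have ey : e y = hatMap e x₀ (φ y) := by
    show e y = e (φ.symm (φ y)); rw [φ.left_inv hys]
  have h1 := a3 (φ y) hyb (φ x) hxb
  have h2 := a2 (φ y) hyb
  have h3 := hLlow (φ x - φ y)
  have h4 : ‖L (φ x - φ y)‖ ≤ ‖e x - e y‖ + 1 / (4 * κ) * ‖φ x - φ y‖ +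
      1 / (4 * κ) * ‖φ x - φ y‖ := by
    have e1 : L (φ x - φ y) = (e x - e y) -
        (hatMap e x₀ (φ x) - hatMap e x₀ (φ y) - fderiv ℝ (hatMap e x₀) (φ y) (φ x - φ y)) -
        (fderiv ℝ (hatMap e x₀) (φ y) - L) (φ x - φ y) := by
      rw [ex, ey]
      simp only [sub_apply]; abel
    rw [e1]
    refine (norm_sub_le _ _).trans (add_le_add ((norm_sub_le _ _).trans (add_le_add le_rfl h1)) ?_)
    exact (ContinuousLinearMap.le_opNorm _ _).trans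
      (mul_le_mul_of_nonneg_right h2 (norm_nonneg _))
  have h5 : κ * (1 / (4 * κ) * ‖φ x - φ y‖) = 1 / 4 * ‖φ x - φ y‖ := by
    field_simp
  have h6 : κ * ‖L (φ x - φ y)‖ ≤ κ * ‖e x - e y‖ + 1 / 4 * ‖φ x - φ y‖ + 1 / 4 * ‖φ x - φ y‖ := by
    rw [← h5]
    have := mul_le_mul_of_nonneg_left h4 hκ0.le
    linarith
  have h7 : ‖φ x - φ y‖ ≤ 2 * κ * ‖e x - e y‖ := by linarith
  exact h7.trans (mul_le_mul_of_nonneg_right (le_max_right _ _) (norm_nonneg _))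

/-- `C¹` maps are locally Lipschitz in terms of an immersion. -/
theorem map_le (e : M → F) (he : ContMDiff 𝓘(ℝ, E₀) 𝓘(ℝ, F) 1 e)
    (hinj : ∀ x, Function.Injective (dm E₀ e x)) (h : M → F)
    (hh : ContMDiff 𝓘(ℝ, E₀) 𝓘(ℝ, F) 1 h) (x₀ : M) :
    ∃ C : ℝ, 1 ≤ C ∧ ∃ W ∈ 𝓝 x₀, ∀ x ∈ W, ∀ y ∈ W, ‖h x - h y‖ ≤ C * ‖e x - e y‖ := by
  obtain ⟨⟨C, hC, hev⟩, hloc⟩ := local_all e he hinj h hh x₀
  obtain ⟨W, hW, r, hr, h1, -, -⟩ := hloc 1 one_pos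
  refine ⟨1 + 2 * (C * C), by nlinarith, W ∩ {x | ∀ v : E₀,
      ‖dm E₀ (extChartAt 𝓘(ℝ, E₀) x₀) x v‖ ≤ C * ‖dm E₀ e x v‖ ∧
      ‖dm E₀ h x v‖ ≤ C * ‖dm E₀ (extChartAt 𝓘(ℝ, E₀) x₀) x v‖}, inter_mem hW hev, ?_⟩
  rintro x ⟨hx, hx'⟩ y ⟨hy, hy'⟩
  obtain ⟨v, h2, h3⟩ := h1 y hy x hx
  obtain ⟨h4, h5⟩ := hy' v
  have h7 := norm_sub_le (e x - e y) (e x - e y - dm E₀ e y v)
  rw [sub_sub_cancel] at h7
  have h8 : ‖dm E₀ e y v‖ ≤ 2 * ‖e x - e y‖ := by linarith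
  have h9 : ‖dm E₀ h y v‖ ≤ C * (C * (2 * ‖e x - e y‖)) := by
    refine h5.trans (mul_le_mul_of_nonneg_left ?_ hC.le)
    exact h4.trans (mul_le_mul_of_nonneg_left h8 hC.le)
  have h10 : ‖h x - h y‖ ≤ ‖h x - h y - dm E₀ h y v‖ + ‖dm E₀ h y v‖ := by
    have := norm_add_le (h x - h y - dm E₀ h y v) (dm E₀ h y v)
    rwa [sub_add_cancel] at this
  have h11 : (1 + 2 * (C * C)) * ‖e x - e y‖ = 1 * ‖e x - e y‖ + C * (C * (2 * ‖e x - e y‖)) := by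
    ring
  linarith

end chart

section glob

variable {M : Type*} [MetricSpace M] [CompactSpace M]

/-- From local to uniform statements. -/
theorem loc_glob (P : ℝ → M → M → Prop) (hmono : ∀ K K' x y, K ≤ K' → P K x y → P K' x y)
    (hloc : ∀ x₀ : M, ∃ K : ℝ, ∃ W ∈ 𝓝 x₀, ∀ x ∈ W, ∀ y ∈ W, P K x y) :
    ∃ K : ℝ, 0 ≤ K ∧ ∃ r > 0, ∀ x y, dist x y < r → P K x y := by
  choose K W hW hP using hloc
  obtain ⟨t, ht⟩ := CompactSpace.elim_nhds_subcover (fun x => interior (W x))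
    (fun x => interior_mem_nhds.mpr (hW x))
  obtain ⟨δ, hδ, hleb⟩ := lebesgue_number_lemma_of_metric (s := (univ : Set M)) isCompact_univ
    (c := fun i : t => interior (W i)) (fun i => isOpen_interior) (by
      rw [← top_eq_univ, ← ht]
      intro x hx
      rw [mem_iUnion₂] at hx
      obtain ⟨i, hi, hxi⟩ := hx
      exact mem_iUnion.mpr ⟨⟨i, hi⟩, hxi⟩)
  obtain ⟨K', hK'⟩ := Finset.exists_le (t.image K)
  refine ⟨max K' 0, le_max_right _ _, δ, hδ, fun x y hxy => ?_⟩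
  obtain ⟨⟨i, hi⟩, hi'⟩ := hleb x (mem_univ x)
  have h1 : x ∈ W i := interior_subset (hi' (mem_ball_self hδ))
  have h2 : y ∈ W i := interior_subset (hi' (by rw [mem_ball, dist_comm]; exact hxy))
  refine hmono (K i) _ x y ?_ (hP i x h1 y h2)
  exact (hK' (K i) (Finset.mem_image_of_mem K hi)).trans (le_max_left _ _)

end glob

end Pool.Agent.Helper905_AJ
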