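import Mathlib

set_option autoImplicit false

open Finset Filter Topology

namespace Pool.Agent.Helper905_AJ

/-- Loop erasure: if every loop has sum at least `-D` and every term is at least `-B`, then a
segment visiting the cells of `s` only has sum at least `-|s| (D + B)`. -/
theorem loop_erasure {ι : Type*} [DecidableEq ι] (a : ℕ → ℝ) (cl : ℕ → ι) (D B : ℝ) (hD : 0 ≤ D)
    (hB : 0 ≤ B) (N : ℕ) (ha : ∀ k < N, -B ≤ a k)
    (hl : ∀ i j, i < j → j < N → cl i = cl j → -D ≤ ∑ k ∈ Ico i j, a k) (s : Finset ι) :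
    ∀ m n, m ≤ n → n ≤ N → (∀ k, m ≤ k → k < n → cl k ∈ s) →
      -((s.card : ℝ) * (D + B)) ≤ ∑ k ∈ Ico m n, a k := by
  induction s using Finset.strongInduction with
  | H s ih =>
    intro m n hmn hnN hs
    rcases Nat.eq_or_lt_of_le hmn with h | hlt
    · subst h
      simp only [Ico_self, sum_empty]
      have : 0 ≤ (s.card : ℝ) * (D + B) := by positivity
      linarith
    · set q := cl m with hq
      have hqs : q ∈ s := hs m le_rfl hlt
      -- last visit to the cell
      set T := (Ico m n).filter (fun k => cl k = q) with hT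
      have hmT : m ∈ T := by
        rw [hT, mem_filter, mem_Ico]
        exact ⟨⟨le_rfl, hlt⟩, rfl⟩
      set j := T.max' ⟨m, hmT⟩ with hj
      have hjT : j ∈ T := T.max'_mem _
      have hj1 := hjT
      rw [hT, mem_filter, mem_Ico] at hj1
      obtain ⟨⟨hmj, hjn⟩, hcj⟩ := hj1
      have h1 : -D ≤ ∑ k ∈ Ico m j, a k := by
        rcases Nat.eq_or_lt_of_le hmj with h | h
        · rw [← h]; simp [hD]
        · exact hl m j h (by omega) (by rw [hcj])
      have h2 : -B ≤ a j := ha j (by omega)
      have hss : s.erase q ⊂ s := Finset.erase_ssubset hqs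
      have h3 := ih (s.erase q) hss (j + 1) n (by omega) hnN (fun k hk hkn => by
        rw [mem_erase]
        refine ⟨fun hkq => ?_, hs k (by omega) hkn⟩
        have hkT : k ∈ T := by
          rw [hT, mem_filter, mem_Ico]
          exact ⟨⟨by omega, hkn⟩, hkq⟩
        have := T.le_max' k hkT
        omega)
      have h4 : ∑ k ∈ Ico m n, a k = ∑ k ∈ Ico m j, a k + a j + ∑ k ∈ Ico (j + 1) n, a k := by
        rw [← Finset.sum_Ico_consecutive a hmj (by omega : j ≤ n),
          ← Finset.sum_Ico_consecutive a (Nat.le_succ j) (by omega : j + 1 ≤ n)]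
        simp [add_assoc]
      have h5 : ((s.erase q).card : ℝ) = (s.card : ℝ) - 1 := by
        rw [Finset.card_erase_of_mem hqs]
        have : 1 ≤ s.card := Finset.card_pos.mpr ⟨q, hqs⟩
        push_cast [Nat.cast_sub this]
        ring
      rw [h5] at h3
      rw [h4]
      nlinarith

/-- Sums over blocks of equal length. -/
theorem sum_div_block (h : ℕ → ℝ) (N M : ℕ) (hN : 1 ≤ N) :
    ∑ i ∈ range (N * M), h (i / N) = N * ∑ k ∈ range M, h k := by
  induction M with
  | zero => simp
  | succ M ih =>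
    rw [Nat.mul_succ, Finset.sum_range_add, ih, Finset.sum_range_succ, mul_add]
    congr 1
    rw [Finset.sum_congr rfl (g := fun _ => h M)]
    · simp
    · intro x hx
      rw [mem_range] at hx
      congr 1
      rw [Nat.mul_add_div (by omega), Nat.div_eq_of_lt hx, add_zero]

/-- harmonic sums are unbounded -/
theorem harmonic_unbounded (a K : ℝ) (ha : 0 < a) : ∃ J : ℕ,
    K < ∑ j ∈ range J, 1 / (a * ((j : ℝ) + 1)) := by
  have h1 := Real.tendsto_sum_range_one_div_nat_succ_atTop
  have h2 : Tendsto (fun n : ℕ => a⁻¹ * ∑ i ∈ range n, 1 / ((i : ℝ) + 1)) atTop atTop :=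
    h1.const_mul_atTop (inv_pos.mpr ha)
  obtain ⟨J, hJ⟩ := (h2.eventually (eventually_gt_atTop K)).exists
  refine ⟨J, ?_⟩
  rw [mul_sum] at hJ
  refine lt_of_lt_of_eq hJ (sum_congr rfl fun j _ => ?_)
  rw [one_div, one_div, mul_inv]

end Pool.Agent.Helper905_AJ
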