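import Pool.Agent.Helper905_AJ.Base
import Pool.Agent.Helper905_AJ.Comb

set_option autoImplicit false
set_option linter.unusedSectionVars false

open Filter Topology Set Metric

namespace Pool.Agent.Helper905_AJ

open Pool.Agent.H721R2 Pool.Agent.H789R2.AN

variable {X : Type*} [MetricSpace X]

/-- The Birkhoff sums of `φ` along two orbit segments of length `n` that stay `η`-close differ by
at most `D n`. -/
def DistB (f : X → X) (φ : X → ℝ) (η : ℝ) (D : ℕ → ℝ) : Prop :=
  ∀ (n : ℕ) (x y : X), (∀ i < n, dist (f^[i] x) (f^[i] y) ≤ η) →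
    |birkhoffSum f φ n x - birkhoffSum f φ n y| ≤ D n

theorem birk_block (f : X → X) (φ : X → ℝ) (N : ℕ) (z : X) (i j : ℕ) (hij : i ≤ j) :
    ∑ k ∈ Finset.Ico i j, birkhoffSum f φ N (f^[N * k] z) =
      birkhoffSum f φ (N * (j - i)) (f^[N * i] z) := by
  induction j, hij using Nat.le_induction with
  | base => simp
  | succ j hij ih =>
    rw [Finset.sum_Ico_succ_top hij, ih, Nat.succ_sub hij, Nat.mul_succ, birkhoffSum_add,
      ← Function.iterate_add_apply]
    congr 3
    rw [← Nat.mul_add, Nat.sub_add_cancel hij]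

theorem birk_lower (f : X → X) (φ : X → ℝ) {B : ℝ} (hB : ∀ x, -B ≤ φ x) (n : ℕ) (x : X) :
    -(n * B) ≤ birkhoffSum f φ n x := by
  induction n with
  | zero => simp
  | succ n ih =>
    rw [birkhoffSum_succ]
    have := hB (f^[n] x)
    push_cast
    linarith

/-- Lower bound for the Birkhoff sums on an attractor without negative periodic orbits. -/
theorem att_lower [CompactSpace X] {E : Type*} [NormedAddCommGroup E] [NormedSpace ℝ E]
    (S : HypSys X E) {f : X ≃ₜ X} {N : ℕ} (hN : 1 ≤ N) (hS : S.g = iterHomeo f N)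
    {η : ℝ} (hη : 0 < η) : ∃ L : ℕ, ∀ (A : Set X), IsAtt f A → ∀ (φ : X → ℝ) (B : ℝ) (D : ℕ → ℝ),
      0 ≤ B → (∀ x, -B ≤ φ x) → Monotone D → (∀ n, 0 ≤ D n) → DistB f φ η D →
      (∀ p ∈ A, ∀ n, 1 ≤ n → f^[n] p = p → 0 ≤ birkhoffSum f φ n p) →
      ∀ z ∈ A, ∀ n, -(L * (D (N * n) + N * B)) ≤ birkhoffSum f φ (N * n) z := by
  classical
  obtain ⟨c, hc⟩ := exists_LP S
  obtain ⟨r, hr, hper⟩ := per_mem_att hc
  obtain ⟨η', hη', hun⟩ := unif_iter f N hη
  set ε := min (η' / 2) (r / 2) with hε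
  have hε0 : 0 < ε := lt_min (half_pos hη') (half_pos hr)
  have hε1 : ε < η' := (min_le_left _ _).trans_lt (half_lt_self hη')
  have hε2 : ε < r := (min_le_right _ _).trans_lt (half_lt_self hr)
  obtain ⟨δ, hδ, hcl⟩ := closing_seg S hc hε0
  obtain ⟨t, -, htf, ht⟩ := finite_cover_balls_of_compact (isCompact_univ (X := X)) (half_pos hδ)
  have hcell : ∀ x : X, ∃ q ∈ t, dist x q < δ / 2 := by
    intro x
    have := ht (mem_univ x)
    rw [mem_iUnion₂] at this
    obtain ⟨q, hq, hxq⟩ := this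
    exact ⟨q, hq, hxq⟩
  choose cell hcell1 hcell2 using hcell
  refine ⟨htf.toFinset.card, fun A hA φ B D hB0 hB hDm hD0 hD hpos z hz n => ?_⟩
  have hAg : IsAtt S.g A := by rw [hS]; exact att_iterH hA hN
  have hgk : ∀ k x, S.g^[k] x = f^[N * k] x := fun k x => by rw [hS, iterH_iter]
  have key := loop_erasure (fun k => birkhoffSum f φ N (f^[N * k] z)) (fun k => cell (f^[N * k] z))
    (D (N * n)) (N * B) (hD0 _) (by positivity) n (fun k _ => birk_lower f φ hB N _) ?_
    htf.toFinset 0 n (Nat.zero_le _) le_rfl (fun k _ _ => by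
      rw [Set.Finite.mem_toFinset]; exact hcell1 _)
  · rw [birk_block f φ N z 0 n (Nat.zero_le _)] at key
    simpa using key
  · intro i j hij hjn hc'
    rw [birk_block f φ N z i j hij.le]
    set x := f^[N * i] z with hx
    have hxA : x ∈ A := (inv_iter hA.inv _ z).mpr hz
    have hji : 1 ≤ j - i := by omega
    have hclose : dist (S.g^[j - i] x) x ≤ δ := by
      have e1 : S.g^[j - i] x = f^[N * j] z := by
        rw [hgk, hx, ← Function.iterate_add_apply, ← Nat.mul_add, Nat.sub_add_cancel hij.le]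
      rw [e1]
      have h1 := hcell2 (f^[N * j] z)
      have h2 := hcell2 x
      have hc'' : cell x = cell (f^[N * j] z) := hc'
      rw [hc''] at h2
      have := dist_triangle_right (f^[N * j] z) x (cell (f^[N * j] z))
      linarith
    obtain ⟨p, hp1, hp2⟩ := hcl (j - i) x hji hclose
    have hp0 : dist p x ≤ ε := by simpa using hp2 0 (by omega)
    have hpA : p ∈ A := hper A hAg x hxA p (j - i) hji hp1 (hp0.trans_lt hε2)
    have hNji : 1 ≤ N * (j - i) := Nat.mul_pos (by omega) (by omega)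
    have hpf : f^[N * (j - i)] p = p := by rw [← hgk]; exact hp1
    have h1 := hpos p hpA _ hNji hpf
    have h2 := hD (N * (j - i)) p x (by
      intro l hl
      have hll : l = l % N + N * (l / N) := (Nat.mod_add_div l N).symm
      have h3 : l / N < j - i := by
        rw [Nat.div_lt_iff_lt_mul (by omega)]
        rwa [Nat.mul_comm]
      have h4 := hp2 (l / N) h3
      rw [hgk, hgk] at h4
      have h5 := hun (l % N) (Nat.mod_lt _ (by omega)).le _ _ (h4.trans_lt hε1)
      rw [← Function.iterate_add_apply, ← Function.iterate_add_apply, ← hll] at h5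
      exact h5.le)
    have h3 : D (N * (j - i)) ≤ D (N * n) := hDm (Nat.mul_le_mul_left N (by omega))
    have h4 := (abs_le.mp h2).2
    linarith

/-- Points near an attractor follow a point of the attractor. -/
theorem att_follow [CompactSpace X] {g : X ≃ₜ X} {f : X ≃ₜ X} {N : ℕ} (hN : 1 ≤ N)
    (hS : g = iterHomeo f N) {c : ℝ} (hc : LP g c) {η : ℝ} (hη : 0 < η) :
    ∃ δ > 0, ∀ A, IsAtt f A → ∀ a ∈ A, ∀ y, dist y a < δ →
      ∃ z ∈ A, SR g c y z ∧ ∀ i, dist (f^[i] y) (f^[i] z) ≤ η := by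
  obtain ⟨η', hη', hun⟩ := unif_iter f N hη
  have hc0 := hc.c_pos
  set ε := min (η' / 2) c with hε
  have hε0 : 0 < ε := lt_min (half_pos hη') hc0
  have hε1 : ε < η' := (min_le_left _ _).trans_lt (half_lt_self hη')
  obtain ⟨δ, hδ, h1⟩ := hc.lp ε hε0
  refine ⟨δ, hδ, fun A hA a ha y hya => ?_⟩
  obtain ⟨z, h2, h3⟩ := h1 y a hya
  have hAg : IsAtt g A := by rw [hS]; exact att_iterH hA hN
  refine ⟨z, hAg.sat a ha z (WS.of_SR (hc.cU _ _ (h3.mono (min_le_right _ _)))),
    h2.mono (min_le_right _ _), fun i => ?_⟩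
  have hll : i = i % N + N * (i / N) := (Nat.mod_add_div i N).symm
  have h4 := h2 (i / N)
  rw [hS, iterH_iter, iterH_iter] at h4
  have h5 := hun (i % N) (Nat.mod_lt _ (by omega)).le _ _ (h4.trans_lt hε1)
  rw [← Function.iterate_add_apply, ← Function.iterate_add_apply, ← hll] at h5
  exact h5.le

end Pool.Agent.Helper905_AJ
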