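import Pool.Agent.Helper905_AJ.Man

set_option autoImplicit false
set_option linter.unusedSectionVars false

open Filter Topology Set Metric MeasureTheory
open scoped Manifold ContDiff

namespace Pool.Agent.Helper905_AJ

open Pool.Agent.H721R2 Pool.Agent.H789R2.AN

section meas

variable {X : Type*} [TopologicalSpace X] [MeasurableSpace X] [BorelSpace X]

/-- The Jacobian of the inverse. -/
theorem expands_symm {f : X ≃ₜ X} {φ : X → ℝ} {ν : Measure X} (hφ : Measurable φ)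
    (h : ∀ B : Set X, MeasurableSet B → ∫⁻ x in B, ENNReal.ofReal (Real.exp (φ x)) ∂ν = ν (f '' B)) :
    Expands f.symm (fun x => -φ (f.symm x)) ν := by
  have hw : Measurable (fun x => ENNReal.ofReal (Real.exp (φ x))) :=
    (Real.measurable_exp.comp hφ).ennreal_ofReal
  have h1 : ν.withDensity (fun x => ENNReal.ofReal (Real.exp (φ x))) = ν.map f.symm := by
    ext C hC
    rw [withDensity_apply _ hC, Measure.map_apply f.symm.continuous.measurable hC, ← image_eq_pre]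
    exact h C hC
  intro B hB
  set C := f.symm '' B with hC
  have hCm : MeasurableSet C := meas_image f.symm hB
  have hBC : B = f.symm ⁻¹' C := by
    rw [hC]; exact (preimage_image_eq B f.symm.injective).symm
  set u : X → ENNReal := fun x => ENNReal.ofReal (Real.exp (-φ x)) with hu
  have hum : Measurable u := (Real.measurable_exp.comp hφ.neg).ennreal_ofReal
  have h2 : ∫⁻ x in B, ENNReal.ofReal (Real.exp (-φ (f.symm x))) ∂ν =
      ∫⁻ x in C, u x ∂(ν.map f.symm) := by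
    rw [setLIntegral_map hCm hum f.symm.continuous.measurable, ← hBC]
  rw [h2, ← h1, restrict_withDensity hCm, lintegral_withDensity_eq_lintegral_mul _ hw hum]
  have h3 : ∀ x, ((fun x => ENNReal.ofReal (Real.exp (φ x))) * u) x = 1 := by
    intro x
    simp only [Pi.mul_apply, hu]
    rw [← ENNReal.ofReal_mul (Real.exp_pos _).le, ← Real.exp_add]
    simp
  rw [lintegral_congr h3]
  simp

end meas

section metric

variable {X : Type*} [MetricSpace X]

theorem mod_comp {k : X → X} {Λ : ℝ} (hΛ : 1 ≤ Λ) (hL : ∀ x y, dist (k x) (k y) ≤ Λ * dist x y)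
    (hk : Function.Injective k) {φ : X → ℝ} {κ : ℝ} (hφ : MetMod (κ / 2) φ) :
    MetMod κ (fun x => -φ (k x)) := by
  obtain ⟨r, hr, h⟩ := hφ
  have hΛ0 : 0 < Λ := by linarith
  refine ⟨min (r / Λ) (1 / Λ ^ 2), lt_min (by positivity) (by positivity), fun x y hne hxy => ?_⟩
  have h1 : dist x y < r / Λ := hxy.trans_le (min_le_left _ _)
  have h2 : dist x y < 1 / Λ ^ 2 := hxy.trans_le (min_le_right _ _)
  have hd0 : 0 < dist x y := dist_pos.mpr hne
  have hk0 : 0 < dist (k x) (k y) := dist_pos.mpr (hk.ne hne)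
  have h3 : dist (k x) (k y) < r := by
    rw [lt_div_iff₀ hΛ0] at h1
    linarith [hL x y, mul_comm Λ (dist x y)]
  have h4 := h (k x) (k y) (hk.ne hne) h3
  have hlogΛ : 0 ≤ Real.log Λ := Real.log_nonneg hΛ
  have hl1 : Real.log (dist x y) < -(2 * Real.log Λ) := by
    have h3 := Real.log_lt_log hd0 h2
    rw [one_div, Real.log_inv, Real.log_pow] at h3
    push_cast at h3
    exact h3
  have hl2 : Real.log (dist (k x) (k y)) ≤ Real.log Λ + Real.log (dist x y) := by
    rw [← Real.log_mul hΛ0.ne' hd0.ne']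
    exact Real.log_le_log hk0 (hL x y)
  have hl3 : |Real.log (dist x y)| ≤ 2 * |Real.log (dist (k x) (k y))| := by
    rw [abs_of_neg (by linarith), abs_of_neg (by linarith)]
    linarith
  have h5 : |-φ (k x) - -φ (k y)| = |φ (k x) - φ (k y)| := by
    rw [← abs_neg]; congr 1; ring
  show |-φ (k x) - -φ (k y)| * |Real.log (dist x y)| ≤ κ
  rw [h5]
  have h6 : |φ (k x) - φ (k y)| * |Real.log (dist x y)| ≤
      |φ (k x) - φ (k y)| * (2 * |Real.log (dist (k x) (k y))|) :=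
    mul_le_mul_of_nonneg_left hl3 (abs_nonneg _)
  linarith

end metric

theorem per_symm {X : Type*} [TopologicalSpace X] (f : X ≃ₜ X) {n : ℕ} {p : X}
    (hp : f.symm^[n] p = p) : f^[n] p = p := by
  conv_lhs => rw [← hp]
  exact (Function.LeftInverse.iterate f.apply_symm_apply n) p

theorem sum_symm {X : Type*} [TopologicalSpace X] (f : X ≃ₜ X) (φ : X → ℝ) {n : ℕ} {p : X}
    (hp : f.symm^[n] p = p) :
    ∑ i ∈ Finset.range n, -φ (f.symm (f.symm^[i] p)) = -∑ i ∈ Finset.range n, φ (f^[i] p) := by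
  have hp' := per_symm f hp
  rw [Finset.sum_neg_distrib, ← Finset.sum_range_reflect (fun i => φ (f^[i] p)) n]
  congr 1
  refine Finset.sum_congr rfl fun i hi => ?_
  rw [Finset.mem_range] at hi
  congr 1
  rw [← Function.iterate_succ_apply' f.symm i]
  have h1 : f^[n - 1 - i] p = f.symm^[i + 1] (f^[i + 1] (f^[n - 1 - i] p)) :=
    ((Function.LeftInverse.iterate f.symm_apply_apply (i + 1)) _).symm
  rw [h1, ← Function.iterate_add_apply f, show i + 1 + (n - 1 - i) = n by omega, hp']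

section top

variable {E : Type*} [NormedAddCommGroup E] [NormedSpace ℝ E] [FiniteDimensional ℝ E]
  {M : Type*} [TopologicalSpace M] [T2Space M] [CompactSpace M] [ConnectedSpace M]
  [ChartedSpace E M] [IsManifold 𝓘(ℝ, E) ∞ M]

omit [FiniteDimensional ℝ E] [T2Space M] [CompactSpace M] [ConnectedSpace M] in
theorem invField_symm' (f : Diffeomorph 𝓘(ℝ, E) 𝓘(ℝ, E) M M 1)
    (V : ∀ x : M, Submodule ℝ (TangentSpace 𝓘(ℝ, E) x)) (h : InvariantField f V) :
    InvariantField f.symm V := by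
  intro x
  have h1 : ∀ y : M, (V y).map (mfderiv 𝓘(ℝ, E) 𝓘(ℝ, E) f y).toLinearMap = V (f y) := h
  have key : ∀ y : M, (V (f y)).map (mfderiv 𝓘(ℝ, E) 𝓘(ℝ, E) f.symm (f y)).toLinearMap =
      (V y : Submodule ℝ E) := by
    intro y
    have hc : (mfderiv 𝓘(ℝ, E) 𝓘(ℝ, E) f.symm (f y)).comp (mfderiv 𝓘(ℝ, E) 𝓘(ℝ, E) f y) =
        ContinuousLinearMap.id ℝ (TangentSpace 𝓘(ℝ, E) y) := by
      have e1 := mfderiv_comp y (I := 𝓘(ℝ, E)) (I' := 𝓘(ℝ, E)) (I'' := 𝓘(ℝ, E))
        (g := f.symm) (f := f)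
        ((f.symm.contMDiff).mdifferentiableAt (by norm_num))
        ((f.contMDiff).mdifferentiableAt (by norm_num))
      have e2 : (f.symm : M → M) ∘ (f : M → M) = id := by
        funext z
        exact f.symm_apply_apply z
      rw [e2, mfderiv_id] at e1
      exact e1.symm
    have e3 : ∀ v : E, (mfderiv 𝓘(ℝ, E) 𝓘(ℝ, E) f.symm (f y))
        ((mfderiv 𝓘(ℝ, E) 𝓘(ℝ, E) f y) v) = v := fun v =>
      congrArg (fun L : E →L[ℝ] E => L v) hc
    rw [← h1 y]
    ext v
    constructor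
    · rintro ⟨w, ⟨z, hz, rfl⟩, rfl⟩
      have e4 := e3 z
      change (mfderiv 𝓘(ℝ, E) 𝓘(ℝ, E) f.symm (f y))
        ((mfderiv 𝓘(ℝ, E) 𝓘(ℝ, E) f y) z) ∈ _
      rw [e4]
      exact hz
    · intro hv
      exact ⟨(mfderiv 𝓘(ℝ, E) 𝓘(ℝ, E) f y) v, ⟨v, hv, rfl⟩, e3 v⟩
  have h2 := key (f.symm x)
  rw [f.apply_symm_apply] at h2
  exact h2

omit [FiniteDimensional ℝ E] [T2Space M] [CompactSpace M] [ConnectedSpace M] in
theorem anosov_symm' (f : Diffeomorph 𝓘(ℝ, E) 𝓘(ℝ, E) M M 1)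
    (Es Eu : ∀ x : M, Submodule ℝ (TangentSpace 𝓘(ℝ, E) x)) (h : IsAnosov f Es Eu) :
    IsAnosov f.symm Eu Es where
  isCompl := fun x => (h.isCompl x).symm
  map_s := invField_symm' f Eu h.map_u
  map_u := invField_symm' f Es h.map_s
  rates := by
    obtain ⟨N, C, l, hN, hC, hl0, hl1, h1, h2⟩ := h.rates
    exact ⟨N, C, l, hN, hC, hl0, hl1, h2, h1⟩

theorem transitive_symm' {X : Type*} [TopologicalSpace X] (f : X ≃ₜ X)
    (h : TopTransitive f.symm) : TopTransitive f := by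
  intro U V hU hUn hV hVn
  obtain ⟨n, y, ⟨x, hx, hxy⟩, hy⟩ := h V U hV hVn hU hUn
  refine ⟨n, x, ⟨y, hy, ?_⟩, hx⟩
  rw [← hxy]
  exact (Function.LeftInverse.iterate f.apply_symm_apply n) x

/-- **The dual statement.** -/
theorem man_dual (f : Diffeomorph 𝓘(ℝ, E) 𝓘(ℝ, E) M M 1)
    (Es Eu : ∀ x : M, Submodule ℝ (TangentSpace 𝓘(ℝ, E) x)) (hf : IsAnosov f Es Eu)
    [MeasurableSpace M] [BorelSpace M] : ∃ κ > 0, ∀ (φ : M → ℝ), LogMod E κ φ →
    ∀ (ν : Measure M) [IsFiniteMeasure ν] [ν.IsOpenPosMeasure],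
    (∀ B : Set M, MeasurableSet B →
      ∫⁻ x in B, ENNReal.ofReal (Real.exp (φ x)) ∂ν = ν (f '' B)) →
    ∀ (A : Set M), UnstableSaturated f.toHomeomorph.symm A →
    (∀ p ∈ A, ∀ n : ℕ, 1 ≤ n → f^[n] p = p → ∑ i ∈ Finset.range n, φ (f^[i] p) ≤ 0) →
    A = univ ∧ TopTransitive f := by
  obtain ⟨m, ee, hee, hemb, hinje⟩ :=
    exists_embedding_euclidean_of_compact (I := 𝓘(ℝ, E)) (M := M)
  let _ : MetricSpace M := hemb.isEmbedding.comapMetricSpace ee
  have hiso : ∀ x y : M, dist x y = ‖ee x - ee y‖ := fun x y => dist_eq_norm (ee x) (ee y)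
  have he1 : ContMDiff 𝓘(ℝ, E) (𝓡 m) 1 ee := hee.of_le (by simp)
  obtain ⟨N, hN, S, hS⟩ := exists_sysN hiso he1 hinje f.symm Eu Es (anosov_symm' f Es Eu hf)
  obtain ⟨Λ, hΛ, hL⟩ := lip_of_C1 hiso he1 hinje f.symm f.symm.contMDiff
  obtain ⟨κ, hκ, hmain⟩ := abstract_main S (f := f.toHomeomorph.symm) hN hS hΛ hL
  refine ⟨κ / 2 / 2, by positivity, fun φ hφ ν _ _ hν A hA hper => ?_⟩
  have hm := logMod_metric hiso he1 hinje hφ
  have hc := continuous_of_metMod hm
  have hm' := mod_comp hΛ hL f.toHomeomorph.symm.injective hm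
  have hc' : Continuous (fun x => -φ (f.toHomeomorph.symm x)) :=
    (hc.comp f.toHomeomorph.symm.continuous).neg
  obtain ⟨h1, h2, -⟩ := hmain _ hc' hm' ν
    (expands_symm (f := f.toHomeomorph) hc.measurable hν) A hA.isAtt (fun p hp n hn hpp => by
      have h3 := sum_symm f.toHomeomorph φ hpp
      have h4 := hper p hp n hn (per_symm f.toHomeomorph hpp)
      rw [birkhoffSum, h3]
      have h5 : ∑ i ∈ Finset.range n, φ (f.toHomeomorph^[i] p) ≤ 0 := h4
      linarith)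
  exact ⟨h1, transitive_symm' f.toHomeomorph h2⟩

end top

end Pool.Agent.Helper905_AJ
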