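import Mathlib

set_option autoImplicit false
set_option linter.unusedSectionVars false

open Filter Topology Set Metric MeasureTheory

namespace Pool.Agent.Helper905_AJ

variable {X : Type*} [TopologicalSpace X] [MeasurableSpace X] [BorelSpace X]

/-- The homeomorphism `f` multiplies the measure `ν` at least by `exp φ`. -/
def Expands (f : X → X) (φ : X → ℝ) (ν : Measure X) : Prop :=
  ∀ B : Set X, MeasurableSet B → ∫⁻ x in B, ENNReal.ofReal (Real.exp (φ x)) ∂ν ≤ ν (f '' B)

theorem image_eq_pre (f : X ≃ₜ X) (B : Set X) : f '' B = f.symm ⁻¹' B := f.image_eq_preimage_symm B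

theorem meas_image (f : X ≃ₜ X) {B : Set X} (hB : MeasurableSet B) : MeasurableSet (f '' B) := by
  rw [image_eq_pre]
  exact f.symm.continuous.measurable hB

theorem expands_lintegral {f : X ≃ₜ X} {φ : X → ℝ} {ν : Measure X} (hφ : Measurable φ)
    (h : Expands f φ ν) {u : X → ENNReal} (hu : Measurable u) {B : Set X} (hB : MeasurableSet B) :
    ∫⁻ x in B, u (f x) * ENNReal.ofReal (Real.exp (φ x)) ∂ν ≤ ∫⁻ x in f '' B, u x ∂ν := by
  have hw : Measurable (fun x => ENNReal.ofReal (Real.exp (φ x))) :=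
    (Real.measurable_exp.comp hφ).ennreal_ofReal
  have huf : Measurable (fun x => u (f x)) := hu.comp f.continuous.measurable
  have h1 : ν.withDensity (fun x => ENNReal.ofReal (Real.exp (φ x))) ≤ ν.map f.symm := by
    rw [Measure.le_iff]
    intro C hC
    rw [withDensity_apply _ hC, Measure.map_apply f.symm.continuous.measurable hC, ← image_eq_pre]
    exact h C hC
  have h2 : ∫⁻ x in B, u (f x) ∂(ν.withDensity (fun x => ENNReal.ofReal (Real.exp (φ x)))) ≤
      ∫⁻ x in B, u (f x) ∂(ν.map f.symm) :=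
    lintegral_mono' (Measure.restrict_mono_measure h1 B) le_rfl
  have h3 : ∫⁻ x in B, u (f x) ∂(ν.withDensity (fun x => ENNReal.ofReal (Real.exp (φ x)))) =
      ∫⁻ x in B, u (f x) * ENNReal.ofReal (Real.exp (φ x)) ∂ν := by
    rw [restrict_withDensity hB, lintegral_withDensity_eq_lintegral_mul _ hw huf]
    exact lintegral_congr fun x => mul_comm _ _
  have h4 : ∫⁻ x in B, u (f x) ∂(ν.map f.symm) = ∫⁻ x in f '' B, u x ∂ν := by
    rw [setLIntegral_map hB huf f.symm.continuous.measurable, ← image_eq_pre]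
    simp
  rw [← h3, ← h4]
  exact h2

theorem measurable_birk {f : X ≃ₜ X} {φ : X → ℝ} (hφ : Measurable φ) (n : ℕ) :
    Measurable (birkhoffSum f φ n) := by
  induction n with
  | zero =>
    have : birkhoffSum f φ 0 = fun _ => 0 := by ext; simp
    rw [this]; exact measurable_const
  | succ n ih =>
    have : birkhoffSum f φ (n + 1) = fun x => birkhoffSum f φ n x + φ (f^[n] x) := by
      ext x; rw [birkhoffSum_succ]
    rw [this]
    exact ih.add (hφ.comp (f.continuous.iterate n).measurable)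

theorem expands_iter {f : X ≃ₜ X} {φ : X → ℝ} {ν : Measure X} (hφ : Measurable φ)
    (h : Expands f φ ν) (n : ℕ) : ∀ {B : Set X}, MeasurableSet B →
    ∫⁻ x in B, ENNReal.ofReal (Real.exp (birkhoffSum f φ n x)) ∂ν ≤ ν (f^[n] '' B) := by
  induction n with
  | zero => intro B hB; simp
  | succ n ih =>
    intro B hB
    have h1 := ih (meas_image f hB)
    have h2 := expands_lintegral hφ h (u := fun x => ENNReal.ofReal (Real.exp (birkhoffSum f φ n x)))
      ((Real.measurable_exp.comp (measurable_birk hφ n)).ennreal_ofReal) hB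
    have h3 : f^[n + 1] '' B = f^[n] '' (f '' B) := by
      rw [Function.iterate_succ, image_comp]
    rw [h3]
    refine le_trans (le_of_eq ?_) (h2.trans h1)
    refine lintegral_congr fun x => ?_
    rw [← ENNReal.ofReal_mul (Real.exp_pos _).le, ← Real.exp_add, birkhoffSum_succ', add_comm]

theorem expands_lower {f : X ≃ₜ X} {φ : X → ℝ} {ν : Measure X} (hφ : Measurable φ)
    (h : Expands f φ ν) (n : ℕ) {B : Set X} (hB : MeasurableSet B) {K : ℝ}
    (hK : ∀ x ∈ B, -K ≤ birkhoffSum f φ n x) :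
    ENNReal.ofReal (Real.exp (-K)) * ν B ≤ ν (f^[n] '' B) := by
  refine le_trans ?_ (expands_iter hφ h n hB)
  rw [← setLIntegral_const]
  refine setLIntegral_mono' hB fun x hx => ?_
  exact ENNReal.ofReal_le_ofReal (Real.exp_le_exp.mpr (hK x hx))

/-- The infimum of the exponentials of the Birkhoff sums. -/
noncomputable def wInf (f : X → X) (φ : X → ℝ) (x : X) : ENNReal :=
  ⨅ n : ℕ, ENNReal.ofReal (Real.exp (birkhoffSum f φ n x))

theorem wInf_le (f : X → X) (φ : X → ℝ) (x : X) :
    wInf f φ x ≤ wInf f φ (f x) * ENNReal.ofReal (Real.exp (φ x)) := by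
  unfold wInf
  rw [ENNReal.iInf_mul_of_ne (by simp [Real.exp_pos]) ENNReal.ofReal_ne_top]
  refine le_iInf fun n => (iInf_le _ (n + 1)).trans (le_of_eq ?_)
  rw [← ENNReal.ofReal_mul (Real.exp_pos _).le, ← Real.exp_add, birkhoffSum_succ', add_comm]

theorem exists_invariant {f : X ≃ₜ X} {φ : X → ℝ} {ν : Measure X} [IsFiniteMeasure ν]
    (hφ : Measurable φ) (h : Expands f φ ν) {K : ℝ}
    (hK : ∀ x n, -K ≤ birkhoffSum f φ n x) :
    ∃ μ : Measure X, MeasurePreserving f μ μ ∧ ENNReal.ofReal (Real.exp (-K)) • ν ≤ μ ∧ μ ≤ ν := by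
  have hwm : Measurable (wInf f φ) :=
    Measurable.iInf fun n => (Real.measurable_exp.comp (measurable_birk hφ n)).ennreal_ofReal
  have hw1 : ∀ x, wInf f φ x ≤ 1 := fun x => by
    refine (iInf_le _ 0).trans ?_
    simp
  have hw2 : ∀ x, ENNReal.ofReal (Real.exp (-K)) ≤ wInf f φ x := fun x =>
    le_iInf fun n => ENNReal.ofReal_le_ofReal (Real.exp_le_exp.mpr (hK x n))
  set μ := ν.withDensity (wInf f φ) with hμ
  have hμν : μ ≤ ν := by
    rw [Measure.le_iff]
    intro C hC
    rw [hμ, withDensity_apply _ hC]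
    calc ∫⁻ x in C, wInf f φ x ∂ν ≤ ∫⁻ x in C, 1 ∂ν := lintegral_mono fun x => hw1 x
      _ = ν C := by simp
  have hμf : IsFiniteMeasure μ := isFiniteMeasure_of_le ν hμν
  have hge : ∀ C, MeasurableSet C → μ C ≤ μ (f '' C) := by
    intro C hC
    rw [hμ, withDensity_apply _ hC, withDensity_apply _ (meas_image f hC)]
    refine le_trans ?_ (expands_lintegral hφ h hwm hC)
    exact lintegral_mono fun x => wInf_le f φ x
  have heq : ∀ C, MeasurableSet C → μ (f '' C) = μ C := by
    intro C hC
    refine le_antisymm ?_ (hge C hC)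
    have h1 := hge Cᶜ hC.compl
    rw [image_compl_eq f.bijective] at h1
    have h2 := measure_add_measure_compl (μ := μ) hC
    have h3 := measure_add_measure_compl (μ := μ) (meas_image f hC)
    have h4 : μ Cᶜ ≠ ⊤ := measure_ne_top μ _
    by_contra hlt
    rw [not_le] at hlt
    have h5 : μ C + μ Cᶜ < μ (f '' C) + μ (f '' C)ᶜ :=
      ENNReal.add_lt_add_of_lt_of_le h4 hlt h1
    rw [h2, h3] at h5
    exact lt_irrefl _ h5
  refine ⟨μ, ⟨f.continuous.measurable, ?_⟩, ?_, hμν⟩
  · ext C hC
    rw [Measure.map_apply f.continuous.measurable hC]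
    have h1 := heq (f ⁻¹' C) (f.continuous.measurable hC)
    rw [image_preimage_eq C f.surjective] at h1
    exact h1.symm
  · rw [Measure.le_iff]
    intro C hC
    rw [hμ, withDensity_apply _ hC, Measure.smul_apply, smul_eq_mul, ← setLIntegral_const]
    exact lintegral_mono fun x => hw2 x

theorem birk_per {f : X → X} (φ : X → ℝ) {n : ℕ} {p : X} (hp : f^[n] p = p) (k : ℕ) :
    birkhoffSum f φ (n * k) p = k * birkhoffSum f φ n p := by
  induction k with
  | zero => simp
  | succ k ih =>
    rw [Nat.mul_succ, birkhoffSum_add, ih]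
    have h1 : f^[n * k] p = p := by
      rw [Function.iterate_mul]
      exact Function.iterate_fixed hp k
    rw [h1]
    push_cast
    ring

theorem continuous_birk {f : X ≃ₜ X} {φ : X → ℝ} (hφ : Continuous φ) (n : ℕ) :
    Continuous (birkhoffSum f φ n) := by
  induction n with
  | zero =>
    have : birkhoffSum f φ 0 = fun _ => 0 := by ext; simp
    rw [this]; exact continuous_const
  | succ n ih =>
    have : birkhoffSum f φ (n + 1) = fun x => birkhoffSum f φ n x + φ (f^[n] x) := by
      ext x; rw [birkhoffSum_succ]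
    rw [this]
    exact ih.add (hφ.comp (f.continuous.iterate n))

/-- An invariant measure equivalent to `ν` bounds the Birkhoff sums from above. -/
theorem upper_of_inv {f : X ≃ₜ X} {φ : X → ℝ} (hφ : Continuous φ) {ν : Measure X}
    [IsFiniteMeasure ν] [ν.IsOpenPosMeasure] (hν : Expands f φ ν) {μ : Measure X}
    (hμ : MeasurePreserving f μ μ) {K : ℝ} (h1 : ENNReal.ofReal (Real.exp (-K)) • ν ≤ μ)
    (h2 : μ ≤ ν) (m : ℕ) (x : X) : birkhoffSum f φ m x ≤ K := by
  by_contra hcon
  rw [not_le] at hcon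
  set K' := (birkhoffSum f φ m x + K) / 2 with hK'
  have hK1 : K < K' := by rw [hK']; linarith
  have hK2 : K' < birkhoffSum f φ m x := by rw [hK']; linarith
  set U : Set X := {y | K' < birkhoffSum f φ m y} with hU
  have hUo : IsOpen U := isOpen_lt continuous_const (continuous_birk hφ m)
  have hUm : MeasurableSet U := hUo.measurableSet
  have h3 := expands_lower hφ.measurable hν m hUm (K := -K') (fun y hy => by
    rw [neg_neg]; exact le_of_lt hy)
  rw [neg_neg] at h3
  have h4 : μ (f^[m] '' U) = μ U := by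
    have h5 := hμ.iterate m
    have h6 : (f^[m]) ⁻¹' (f^[m] '' U) = U := preimage_image_eq U (f.injective.iterate m)
    have h7 : MeasurableSet (f^[m] '' U) := by
      have : f^[m] '' U = (f.symm^[m]) ⁻¹' U := by
        ext z
        constructor
        · rintro ⟨u, hu, rfl⟩
          show f.symm^[m] (f^[m] u) ∈ U
          rw [(Function.LeftInverse.iterate f.symm_apply_apply m) u]; exact hu
        · intro hz
          exact ⟨_, hz, (Function.LeftInverse.iterate f.apply_symm_apply m) z⟩
      rw [this]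
      exact (f.symm.continuous.iterate m).measurable hUm
    rw [← h5.measure_preimage h7.nullMeasurableSet, h6]
  have h5 : ENNReal.ofReal (Real.exp (-K)) * (ENNReal.ofReal (Real.exp K') * ν U) ≤ ν U := by
    calc ENNReal.ofReal (Real.exp (-K)) * (ENNReal.ofReal (Real.exp K') * ν U)
        ≤ ENNReal.ofReal (Real.exp (-K)) * ν (f^[m] '' U) := by gcongr
      _ ≤ μ (f^[m] '' U) := h1 _
      _ = μ U := h4
      _ ≤ ν U := h2 _
  rw [← mul_assoc, ← ENNReal.ofReal_mul (Real.exp_pos _).le, ← Real.exp_add] at h5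
  have h6 : ν U ≠ 0 := (hUo.measure_pos ν ⟨x, hK2⟩).ne'
  have h7 : ν U ≠ ⊤ := measure_ne_top ν U
  have h8 : ENNReal.ofReal (Real.exp (-K + K')) ≤ 1 := by
    by_contra hc
    rw [not_le] at hc
    have h9 : 1 * ν U < ENNReal.ofReal (Real.exp (-K + K')) * ν U :=
      (ENNReal.mul_lt_mul_iff_left h6 h7).mpr hc
    rw [one_mul] at h9
    exact absurd h5 (not_le.mpr h9)
  have h9 : Real.exp (-K + K') ≤ 1 := by
    rw [← ENNReal.ofReal_one] at h8
    exact (ENNReal.ofReal_le_ofReal_iff (by norm_num)).mp h8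
  have h10 : 0 < -K + K' := by linarith
  exact absurd h9 (not_le.mpr (Real.one_lt_exp_iff.mpr h10))

theorem per_zero {f : X ≃ₜ X} {φ : X → ℝ} {K : ℝ} (h : ∀ m x, birkhoffSum f φ m x ≤ K)
    (hpos : ∀ p, ∀ n, 1 ≤ n → f^[n] p = p → 0 ≤ birkhoffSum f φ n p) (p : X) (n : ℕ)
    (hp : f^[n] p = p) : birkhoffSum f φ n p = 0 := by
  rcases Nat.eq_zero_or_pos n with h0 | h0
  · subst h0; simp
  refine le_antisymm ?_ (hpos p n h0 hp)
  by_contra hcon
  rw [not_le] at hcon
  obtain ⟨k, hk⟩ := exists_nat_gt (K / birkhoffSum f φ n p)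
  rw [div_lt_iff₀ hcon] at hk
  have h1 := h (n * k) p
  rw [birk_per φ hp] at h1
  linarith

end Pool.Agent.Helper905_AJ
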