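import Pool.Agent.Helper905_AJ.Dist
import Pool.Agent.Helper905_AJ.Meas

set_option autoImplicit false
set_option linter.unusedSectionVars false

open Filter Topology Set Metric MeasureTheory

namespace Pool.Agent.Helper905_AJ

open Pool.Agent.H721R2 Pool.Agent.H789R2.AN

variable {X : Type*} [MetricSpace X] [CompactSpace X]
  {E : Type*} [NormedAddCommGroup E] [NormedSpace ℝ E]

/-- logarithmic distortion on `η`-close orbit segments -/
def LogD (f : X → X) (φ : X → ℝ) (η ε : ℝ) : Prop :=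
  ∃ C : ℝ, DistB f φ η (fun n => ε * Real.log (n + 1) + C)

theorem bas_eq [MeasurableSpace X] [BorelSpace X]
    (S : HypSys X E) {f : X ≃ₜ X} {N : ℕ} (hN : 1 ≤ N) (hS : S.g = iterHomeo f N)
    {c : ℝ} (hc : LP S.g c) {η : ℝ} (hη : 0 < η) :
    ∃ ε₀ > 0, ∀ (φ : X → ℝ), Measurable φ → ∀ (B : ℝ), 0 ≤ B → (∀ x, -B ≤ φ x) →
    LogD f φ η ε₀ → ∀ (ν : Measure X) [IsFiniteMeasure ν] [ν.IsOpenPosMeasure],
    Expands f φ ν → ∀ (A : Set X), IsAtt f A →
    (∀ p ∈ A, ∀ n, 1 ≤ n → f^[n] p = p → 0 ≤ birkhoffSum f φ n p) →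
    Bas S.g A ⊆ A := by
  obtain ⟨L, hL⟩ := att_lower S hN hS hη
  obtain ⟨δ, hδ, hfol⟩ := att_follow hN hS hc hη
  have hL0 : (0 : ℝ) < (L : ℝ) + 1 := by positivity
  refine ⟨1 / ((L : ℝ) + 1), by positivity, fun φ hφ B hB0 hB hD ν _ _ hν A hA hpos => ?_⟩
  have hAg : IsAtt S.g A := by rw [hS]; exact att_iterH hA hN
  have hgk : ∀ k x, S.g^[k] x = f^[N * k] x := fun k x => by rw [hS, iterH_iter]
  obtain ⟨C₀, hC₀⟩ := hD
  set C := max C₀ 0 with hC
  have hCC : C₀ ≤ C := le_max_left _ _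
  have hC0 : 0 ≤ C := le_max_right _ _
  set D : ℕ → ℝ := fun n => 1 / ((L : ℝ) + 1) * Real.log (n + 1) + C with hDdef
  have hlog : ∀ n : ℕ, 0 ≤ Real.log ((n : ℝ) + 1) := fun n =>
    Real.log_nonneg (by have : (0 : ℝ) ≤ n := Nat.cast_nonneg n; linarith)
  have hDB : DistB f φ η D := fun n x y hxy => (hC₀ n x y hxy).trans (by
    simp only [hDdef]; linarith)
  have hD0 : ∀ n, 0 ≤ D n := fun n => by
    have := hlog n
    simp only [hDdef]
    positivity
  have hDm : Monotone D := by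
    intro a b hab
    have h1 : Real.log ((a : ℝ) + 1) ≤ Real.log ((b : ℝ) + 1) := by
      apply Real.log_le_log (by positivity)
      have : (a : ℝ) ≤ b := by exact_mod_cast hab
      linarith
    simp only [hDdef]
    have h2 : 1 / ((L : ℝ) + 1) * Real.log ((a : ℝ) + 1) ≤
        1 / ((L : ℝ) + 1) * Real.log ((b : ℝ) + 1) := mul_le_mul_of_nonneg_left h1 (by positivity)
    linarith
  have hLow := hL A hA φ B D hB0 hB hDm hD0 hDB hpos
  intro y hy
  by_contra hyA
  obtain ⟨z, hz, hyz⟩ := hy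
  obtain ⟨m, hm⟩ := hyz.eventually_lt hδ
  have hm0 := hm m le_rfl
  set a := S.g^[m] z with ha
  have haA : a ∈ A := (inv_iter hAg.inv m z).mpr hz
  obtain ⟨r, hr, hrA⟩ : ∃ r > 0, ∀ x ∈ A, r ≤ dist x y := by
    have h1 : Aᶜ ∈ 𝓝 y := hA.closed.isOpen_compl.mem_nhds hyA
    obtain ⟨r, hr, h2⟩ := Metric.mem_nhds_iff.mp h1
    refine ⟨r, hr, fun x hx => ?_⟩
    by_contra hlt
    exact h2 (by rw [Metric.mem_ball]; exact lt_of_not_ge hlt) hx
  set U : Set X := {y' | dist (S.g^[m] y') a < δ} ∩ ball y (r / 2) with hU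
  have hUo : IsOpen U := by
    refine IsOpen.inter ?_ isOpen_ball
    exact isOpen_lt ((S.g.continuous.iterate m).dist continuous_const) continuous_const
  have hUy : y ∈ U := ⟨hm0, mem_ball_self (half_pos hr)⟩
  obtain ⟨k₀, hk₀⟩ := geo_small c (half_pos hr)
  set n₁ := m + k₀ + 1 with hn₁
  -- iterates leave U
  have hleave : ∀ n ≥ n₁, ∀ x ∈ U, S.g^[n] x ∉ U := by
    intro n hn x hx hx'
    obtain ⟨z', hz', h1, -⟩ := hfol A hA a haA _ hx.1
    have h2 := hc.cS _ _ h1 (n - m)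
    rw [← Function.iterate_add_apply, Nat.sub_add_cancel (by omega)] at h2
    have h3 := hk₀ (n - m) (by omega)
    have h4 := hrA _ ((inv_iter hAg.inv (n - m) z').mpr hz')
    have h5 : dist (S.g^[n] x) y < r / 2 := hx'.2
    have h6 := dist_triangle_left (S.g^[n - m] z') y (S.g^[n] x)
    linarith
  have hUmeas : MeasurableSet U := hUo.measurableSet
  set V : ℕ → Set X := fun j => f^[N * (n₁ * j)] '' U with hV
  have hVg : ∀ j, V j = S.g^[n₁ * j] '' U := fun j => by
    ext x; simp only [hV, mem_image, hgk]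
  have hVmeas : ∀ j, MeasurableSet (V j) := by
    intro j
    rw [hVg]
    have : S.g^[n₁ * j] '' U = S.g.symm^[n₁ * j] ⁻¹' U := by
      ext x
      constructor
      · rintro ⟨u, hu, rfl⟩
        show S.g.symm^[n₁ * j] (S.g^[n₁ * j] u) ∈ U
        rw [iterL]; exact hu
      · intro hx
        exact ⟨_, hx, iterR _ _ _⟩
    rw [this]
    exact (S.g.symm.continuous.iterate _).measurable hUmeas
  have hVdisj : ∀ i j, i < j → Disjoint (V i) (V j) := by
    intro i j hij
    rw [hVg, hVg, Set.disjoint_left]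
    rintro _ ⟨u, hu, rfl⟩ ⟨v, hv, hvu⟩
    have h1 : n₁ * j = n₁ * i + n₁ * (j - i) := by
      rw [← Nat.mul_add]; congr 1; omega
    rw [h1, Function.iterate_add_apply] at hvu
    have h2 : S.g^[n₁ * (j - i)] v = u := (S.g.injective.iterate (n₁ * i)) hvu
    exact hleave (n₁ * (j - i)) (Nat.le_mul_of_pos_right _ (by omega)) v hv (h2 ▸ hu)
  have hsum : ∀ J : ℕ, ∑ j ∈ Finset.range J, ν (V j) ≤ ν univ := fun J =>
    sum_measure_le_measure_univ (fun j _ => (hVmeas j).nullMeasurableSet) (by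
      intro i _ j _ hij
      rcases Nat.lt_or_gt_of_ne hij with h | h
      · exact (hVdisj i j h).aedisjoint
      · exact (hVdisj j i h).symm.aedisjoint)
  -- lower bounds
  set K' : ℝ := N * m * B + L * (N * B) + (L + 1) * C with hK'
  have hlow : ∀ j : ℕ, ∀ x ∈ U,
      -(K' + Real.log ((N * (n₁ * j) : ℕ) + 1)) ≤ birkhoffSum f φ (N * (n₁ * j)) x := by
    intro j x hx
    set n := n₁ * j with hn
    have hNmB : 0 ≤ (N : ℝ) * m * B := by positivity
    have hLNB : 0 ≤ (L : ℝ) * (N * B) := by positivity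
    have hLC : 0 ≤ ((L : ℝ) + 1) * C := by positivity
    have hlg := hlog (N * n)
    rcases Nat.lt_or_ge n m with hnm | hnm
    · have h1 := birk_lower f φ hB (N * n) x
      have h2 : ((N * n : ℕ) : ℝ) * B ≤ N * m * B := by
        push_cast
        have : (n : ℝ) ≤ m := by exact_mod_cast hnm.le
        gcongr
      linarith
    · have h1 : N * n = N * m + N * (n - m) := by
        rw [← Nat.mul_add]; congr 1; omega
      have h2 := birk_lower f φ hB (N * m) x
      obtain ⟨z', hz', -, h3⟩ := hfol A hA a haA _ hx.1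
      rw [hgk] at h3
      have h4 := hDB (N * (n - m)) _ _ (fun i _ => h3 i)
      have h5 := hLow z' hz' (n - m)
      have h6 := (abs_le.mp h4).1
      have h7 : D (N * (n - m)) ≤ D (N * n) := hDm (Nat.mul_le_mul_left N (by omega))
      have h8 : ((L : ℝ) + 1) * D (N * n) = Real.log ((N * n : ℕ) + 1) + (L + 1) * C := by
        simp only [hDdef]
        field_simp
      have h9 : ((L : ℝ) + 1) * D (N * (n - m)) ≤ ((L : ℝ) + 1) * D (N * n) :=
        mul_le_mul_of_nonneg_left h7 hL0.le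
      have h10 : birkhoffSum f φ (N * n) x =
          birkhoffSum f φ (N * m) x + birkhoffSum f φ (N * (n - m)) (f^[N * m] x) := by
        rw [h1, birkhoffSum_add]
      push_cast at h2
      rw [h10]
      nlinarith
  have hνU : 0 < (ν U).toReal := ENNReal.toReal_pos (hUo.measure_pos ν ⟨y, hUy⟩).ne'
    (measure_ne_top ν U)
  have ha0 : (0 : ℝ) < (N : ℝ) * n₁ := by
    have h1 : (1 : ℝ) ≤ N := by exact_mod_cast hN
    have h2 : (1 : ℝ) ≤ n₁ := by exact_mod_cast (by omega : 1 ≤ n₁)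
    positivity
  have ha1 : (1 : ℝ) ≤ (N : ℝ) * n₁ := by
    have h1 : (1 : ℝ) ≤ N := by exact_mod_cast hN
    have h2 : (1 : ℝ) ≤ n₁ := by exact_mod_cast (by omega : 1 ≤ n₁)
    nlinarith
  have hVlow : ∀ j : ℕ, Real.exp (-K') * (ν U).toReal * (1 / ((N : ℝ) * n₁ * ((j : ℝ) + 1))) ≤
      (ν (V j)).toReal := by
    intro j
    have h1 := expands_lower hφ hν (N * (n₁ * j)) hUmeas (hlow j)
    have h2 := ENNReal.toReal_mono (measure_ne_top ν _) h1
    rw [ENNReal.toReal_mul, ENNReal.toReal_ofReal (Real.exp_pos _).le] at h2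
    have h3 : Real.exp (-(K' + Real.log ((N * (n₁ * j) : ℕ) + 1))) =
        Real.exp (-K') * (1 / (((N * (n₁ * j) : ℕ) : ℝ) + 1)) := by
      rw [neg_add, Real.exp_add, Real.exp_neg (Real.log _), Real.exp_log (by positivity), one_div]
    rw [h3] at h2
    have h4 : 1 / ((N : ℝ) * n₁ * ((j : ℝ) + 1)) ≤ 1 / (((N * (n₁ * j) : ℕ) : ℝ) + 1) := by
      apply one_div_le_one_div_of_le (by positivity)
      push_cast
      nlinarith
    calc Real.exp (-K') * (ν U).toReal * (1 / ((N : ℝ) * n₁ * ((j : ℝ) + 1)))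
        ≤ Real.exp (-K') * (ν U).toReal * (1 / (((N * (n₁ * j) : ℕ) : ℝ) + 1)) :=
          mul_le_mul_of_nonneg_left h4 (by positivity)
      _ = Real.exp (-K') * (1 / (((N * (n₁ * j) : ℕ) : ℝ) + 1)) * (ν U).toReal := by ring
      _ ≤ _ := h2
  obtain ⟨J, hJ⟩ := harmonic_unbounded ((N : ℝ) * n₁)
    ((ν univ).toReal / (Real.exp (-K') * (ν U).toReal)) ha0
  rw [div_lt_iff₀ (by positivity)] at hJ
  have h1 : ∑ j ∈ Finset.range J, (ν (V j)).toReal ≤ (ν univ).toReal := by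
    rw [← ENNReal.toReal_sum (fun j _ => measure_ne_top ν _)]
    exact ENNReal.toReal_mono (measure_ne_top ν _) (hsum J)
  have h2 : (∑ j ∈ Finset.range J, 1 / ((N : ℝ) * n₁ * ((j : ℝ) + 1))) *
      (Real.exp (-K') * (ν U).toReal) ≤ ∑ j ∈ Finset.range J, (ν (V j)).toReal := by
    rw [Finset.sum_mul]
    refine Finset.sum_le_sum fun j _ => ?_
    rw [mul_comm]
    exact hVlow j
  linarith

/-- An attractor without negative periodic orbits is the whole space. -/
theorem att_univ [PreconnectedSpace X] [MeasurableSpace X] [BorelSpace X]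
    (S : HypSys X E) {f : X ≃ₜ X} {N : ℕ} (hN : 1 ≤ N) (hS : S.g = iterHomeo f N)
    {η : ℝ} (hη : 0 < η) :
    ∃ ε₀ > 0, ∀ (φ : X → ℝ), Measurable φ → ∀ (B : ℝ), 0 ≤ B → (∀ x, -B ≤ φ x) →
    LogD f φ η ε₀ → ∀ (ν : Measure X) [IsFiniteMeasure ν] [ν.IsOpenPosMeasure],
    Expands f φ ν → ∀ (A : Set X), IsAtt f A →
    (∀ p ∈ A, ∀ n, 1 ≤ n → f^[n] p = p → 0 ≤ birkhoffSum f φ n p) → A = univ := by
  obtain ⟨c, hc⟩ := exists_LP S
  obtain ⟨ε₀, hε₀, hb⟩ := bas_eq S hN hS hc hη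
  refine ⟨ε₀, hε₀, fun φ hφ B hB0 hB hD ν _ _ hν A hA hpos => ?_⟩
  have hAg : IsAtt S.g A := by rw [hS]; exact att_iterH hA hN
  have h1 : Bas S.g A = A :=
    Subset.antisymm (hb φ hφ B hB0 hB hD ν hν A hA hpos) (subset_bas _ _)
  have h2 : IsOpen A := by
    rw [← h1]
    exact isOpen_bas hc hAg
  exact IsClopen.eq_univ ⟨hA.closed, h2⟩ hA.nonempty

theorem birk_iterH (f : X ≃ₜ X) (φ : X → ℝ) (N n : ℕ) (x : X) :
    birkhoffSum (iterHomeo f N) (birkhoffSum f φ N) n x = birkhoffSum f φ (N * n) x := by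
  have h := birk_block f φ N x 0 n (Nat.zero_le _)
  simp only [Nat.sub_zero, Nat.mul_zero, Function.iterate_zero, id_eq] at h
  rw [← h, birkhoffSum, Finset.range_eq_Ico]
  exact Finset.sum_congr rfl fun k _ => by rw [iterH_iter]

/-- Transitivity. -/
theorem trans_of_pos [PreconnectedSpace X] [MeasurableSpace X] [BorelSpace X]
    (S : HypSys X E) {f : X ≃ₜ X} {N : ℕ} (hN : 1 ≤ N) (hS : S.g = iterHomeo f N)
    {η : ℝ} (hη : 0 < η) :
    ∃ ε₀ > 0, ∀ (φ : X → ℝ), Measurable φ → ∀ (B : ℝ), 0 ≤ B → (∀ x, -B ≤ φ x) →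
    LogD f φ η ε₀ → ∀ (ν : Measure X) [IsFiniteMeasure ν] [ν.IsOpenPosMeasure],
    Expands f φ ν →
    (∀ p, ∀ n, 1 ≤ n → f^[n] p = p → 0 ≤ birkhoffSum f φ n p) → ∀ (U V : Set X),
    IsOpen U → U.Nonempty → IsOpen V → V.Nonempty →
    ∃ n : ℕ, (f^[n] '' U ∩ V).Nonempty := by
  obtain ⟨c, hc⟩ := exists_LP S
  obtain ⟨η', hη', hun⟩ := unif_iter f N hη
  obtain ⟨ε₀, hε₀, hb⟩ := att_univ S le_rfl (f := S.g) (by ext x; rfl) (half_pos hη')
  refine ⟨ε₀, hε₀, fun φ hφ B hB0 hB hD ν _ _ hν hpos U V hU hUn hV hVn => ?_⟩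
  have hgb : ∀ n x, birkhoffSum S.g (birkhoffSum f φ N) n x = birkhoffSum f φ (N * n) x := by
    intro n x
    rw [hS, birk_iterH]
  have hinv : ∀ A, IsAtt S.g A → A = univ := by
    intro A hA
    refine hb (birkhoffSum f φ N) (measurable_birk hφ N) (N * B) (by positivity)
      (fun x => birk_lower f φ hB N x) ?_ ν (fun C hC => ?_) A hA (fun p _ n hn hp => ?_)
    · obtain ⟨C, hC⟩ := hD
      refine ⟨ε₀ * Real.log N + C, fun n x y hxy => ?_⟩
      rw [hgb, hgb]
      refine (hC (N * n) x y fun l hl => ?_).trans ?_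
      · have hll : l = l % N + N * (l / N) := (Nat.mod_add_div l N).symm
        have h3 : l / N < n := by
          rw [Nat.div_lt_iff_lt_mul (by omega)]
          rwa [Nat.mul_comm]
        have h4 := hxy (l / N) h3
        rw [hS, iterH_iter, iterH_iter] at h4
        have h5 := hun (l % N) (Nat.mod_lt _ (by omega)).le _ _
          (h4.trans_lt (half_lt_self hη'))
        rw [← Function.iterate_add_apply, ← Function.iterate_add_apply, ← hll] at h5
        exact h5.le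
      · have hN0 : (0 : ℝ) < N := by exact_mod_cast (by omega : 0 < N)
        have hN1 : (1 : ℝ) ≤ N := by exact_mod_cast hN
        have h6 : Real.log (((N * n : ℕ) : ℝ) + 1) ≤ Real.log N + Real.log ((n : ℝ) + 1) := by
          rw [← Real.log_mul hN0.ne' (by positivity)]
          apply Real.log_le_log (by positivity)
          push_cast
          nlinarith
        show ε₀ * Real.log (((N * n : ℕ) : ℝ) + 1) + C ≤ _
        nlinarith
    · have h1 := expands_iter hφ hν N hC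
      rw [hS]
      exact h1
    · rw [hgb]
      refine hpos p (N * n) (Nat.mul_pos (by omega) (by omega)) ?_
      rw [← iterH_iter, ← hS]
      exact hp
  obtain ⟨n, hn⟩ := transitive_of_unique hc hinv U V hU hUn hV hVn
  refine ⟨N * n, ?_⟩
  have : S.g^[n] = f^[N * n] := by
    funext x; rw [hS, iterH_iter]
  rwa [this] at hn

theorem LogD.mono {f : X → X} {φ : X → ℝ} {η ε ε' : ℝ} (h : LogD f φ η ε) (he : ε ≤ ε') :
    LogD f φ η ε' := by
  obtain ⟨C, hC⟩ := h
  refine ⟨C, fun n x y hxy => (hC n x y hxy).trans ?_⟩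
  have : 0 ≤ Real.log ((n : ℝ) + 1) :=
    Real.log_nonneg (by have : (0 : ℝ) ≤ n := Nat.cast_nonneg n; linarith)
  show ε * Real.log ((n : ℝ) + 1) + C ≤ ε' * Real.log ((n : ℝ) + 1) + C
  nlinarith

end Pool.Agent.Helper905_AJ
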