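import Pool.Agent.Helper905_AJ.Dist

set_option autoImplicit false
set_option linter.unusedSectionVars false

open Filter Topology Set Metric

namespace Pool.Agent.Helper905_AJ

open Pool.Agent.H721R2 Pool.Agent.H789R2.AN

variable {X : Type*} [MetricSpace X]

/-- Orbit segments that stay close are exponentially close in the middle. -/
theorem exp_close {g : X ≃ₜ X} {c : ℝ} (hc : LP g c) : ∃ η > 0, ∀ (x y : X) (m : ℕ),
    (∀ k ≤ m, dist (g^[k] x) (g^[k] y) ≤ η) →
      ∀ k ≤ m, dist (g^[k] x) (g^[k] y) ≤ c * (1 / 2) ^ k + c * (1 / 2) ^ (m - k) := by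
  have hc0 := hc.c_pos
  obtain ⟨δ, hδ, hlp⟩ := hc.lp (c / 2) (half_pos hc0)
  refine ⟨min (δ / 2) (c / 2), lt_min (half_pos hδ) (half_pos hc0), fun x y m hxy k hk => ?_⟩
  have h0 := hxy 0 (Nat.zero_le _)
  simp only [Function.iterate_zero, id_eq] at h0
  have h0' : dist y x < δ := by
    rw [dist_comm]
    exact (h0.trans (min_le_left _ _)).trans_lt (half_lt_self hδ)
  obtain ⟨z, hz1, hz2⟩ := hlp y x h0'
  have h1 := hc.cS _ _ (hz1.mono (half_le_self hc0.le)) k
  have h2 : SR g.symm c (g^[m] x) (g^[m] z) := by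
    intro j
    rcases le_total j m with hj | hj
    · have e : ∀ u : X, g.symm^[j] (g^[m] u) = g^[m - j] u := fun u => by
        have : g^[m] u = g^[j] (g^[m - j] u) := by
          rw [← Function.iterate_add_apply]; congr 1; omega
        rw [this, iterL]
      rw [e, e]
      have h3 := hxy (m - j) (by omega)
      have h4 := hz1 (m - j)
      have h5 := dist_triangle (g^[m - j] x) (g^[m - j] y) (g^[m - j] z)
      have h6 : min (δ / 2) (c / 2) ≤ c / 2 := min_le_right _ _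
      linarith
    · have e : ∀ u : X, g.symm^[j] (g^[m] u) = g.symm^[j - m] u := fun u => by
        have : g.symm^[j] (g^[m] u) = g.symm^[j - m] (g.symm^[m] (g^[m] u)) := by
          rw [← Function.iterate_add_apply]; congr 1; omega
        rw [this, iterL]
      rw [e, e]
      have h4 := hz2 (j - m)
      linarith
  have h3 := hc.cU _ _ h2 (m - k)
  have e : ∀ u : X, g.symm^[m - k] (g^[m] u) = g^[k] u := fun u => by
    have : g^[m] u = g^[m - k] (g^[k] u) := by
      rw [← Function.iterate_add_apply]; congr 1; omega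
    rw [this, iterL]
  rw [e, e] at h3
  have h4 := dist_triangle_right (g^[k] x) (g^[k] y) (g^[k] z)
  linarith

theorem lip_iter {f : X → X} {Λ : ℝ} (hΛ : 1 ≤ Λ) (hL : ∀ x y, dist (f x) (f y) ≤ Λ * dist x y)
    (n : ℕ) (x y : X) : dist (f^[n] x) (f^[n] y) ≤ Λ ^ n * dist x y := by
  induction n with
  | zero => simp
  | succ n ih =>
    rw [Function.iterate_succ_apply', Function.iterate_succ_apply', pow_succ]
    have h1 := hL (f^[n] x) (f^[n] y)
    have h2 : Λ * dist (f^[n] x) (f^[n] y) ≤ Λ * (Λ ^ n * dist x y) :=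
      mul_le_mul_of_nonneg_left ih (by linarith)
    calc _ ≤ _ := h1
      _ ≤ _ := h2
      _ = _ := by ring

/-- Distortion bound in terms of the oscillations of `φ` at the scales `2⁻ᵏ`. -/
theorem dist_sum {f : X ≃ₜ X} {N : ℕ} (hN : 1 ≤ N) {c : ℝ} (hc : LP (iterHomeo f N) c)
    {Λ : ℝ} (hΛ : 1 ≤ Λ) (hL : ∀ x y, dist (f x) (f y) ≤ Λ * dist x y) :
    ∃ η > 0, ∀ (φ : X → ℝ) (b : ℕ → ℝ), (∀ k, 0 ≤ b k) →
      (∀ k x y, dist x y ≤ 2 * c * Λ ^ N * (1 / 2) ^ k → |φ x - φ y| ≤ b k) →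
      DistB f φ η (fun n => 2 * N * ∑ k ∈ Finset.range (n + 1), b k) := by
  obtain ⟨η, hη, hexp⟩ := exp_close hc
  have hc0 := hc.c_pos
  refine ⟨η, hη, fun φ b hb0 hb n x y hxy => ?_⟩
  rcases Nat.eq_zero_or_pos n with h0 | hn
  · subst h0
    simp only [birkhoffSum_zero, sub_self, abs_zero]
    have : 0 ≤ ∑ k ∈ Finset.range (0 + 1), b k := Finset.sum_nonneg fun k _ => hb0 k
    positivity
  set m := (n - 1) / N with hm
  have hmn : N * m ≤ n - 1 := Nat.mul_div_le (n - 1) N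
  have hnm : n ≤ N * (m + 1) := by
    have := Nat.lt_mul_div_succ (n - 1) (by omega : 0 < N)
    rw [← hm] at this
    omega
  have h1 := hexp x y m (fun k hk => by
    rw [iterH_iter, iterH_iter]
    apply hxy
    have : N * k ≤ N * m := Nat.mul_le_mul_left N hk
    omega)
  have hterm : ∀ i < n, |φ (f^[i] x) - φ (f^[i] y)| ≤ b (i / N) + b (m - i / N) := by
    intro i hi
    have hk : i / N ≤ m := Nat.div_le_div_right (by omega)
    set k := i / N with hkdef
    have hii : i = i % N + N * k := (Nat.mod_add_div i N).symm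
    have h2 := h1 k hk
    rw [iterH_iter, iterH_iter] at h2
    have h3 := lip_iter hΛ hL (i % N) (f^[N * k] x) (f^[N * k] y)
    rw [← Function.iterate_add_apply, ← Function.iterate_add_apply, ← hii] at h3
    have h4 : Λ ^ (i % N) ≤ Λ ^ N := pow_le_pow_right₀ hΛ (Nat.mod_lt _ (by omega)).le
    have h5 : 0 ≤ dist (f^[N * k] x) (f^[N * k] y) := dist_nonneg
    have h6 : dist (f^[i] x) (f^[i] y) ≤ Λ ^ N * (c * (1 / 2) ^ k + c * (1 / 2) ^ (m - k)) := by
      refine h3.trans ?_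
      have h7 : 0 ≤ Λ ^ N := by positivity
      calc Λ ^ (i % N) * dist (f^[N * k] x) (f^[N * k] y)
          ≤ Λ ^ N * dist (f^[N * k] x) (f^[N * k] y) := mul_le_mul_of_nonneg_right h4 h5
        _ ≤ _ := mul_le_mul_of_nonneg_left h2 h7
    have hΛN : 0 ≤ Λ ^ N * c := by positivity
    rcases le_total k (m - k) with h | h
    · have h8 : (1 / 2 : ℝ) ^ (m - k) ≤ (1 / 2) ^ k :=
        pow_le_pow_of_le_one (by norm_num) (by norm_num) h
      have h9 := hb k (f^[i] x) (f^[i] y) (h6.trans (by nlinarith))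
      have := hb0 (m - k)
      linarith
    · have h8 : (1 / 2 : ℝ) ^ k ≤ (1 / 2) ^ (m - k) :=
        pow_le_pow_of_le_one (by norm_num) (by norm_num) h
      have h9 := hb (m - k) (f^[i] x) (f^[i] y) (h6.trans (by nlinarith))
      have := hb0 k
      linarith
  have h2 : |birkhoffSum f φ n x - birkhoffSum f φ n y| ≤
      ∑ i ∈ Finset.range n, (b (i / N) + b (m - i / N)) := by
    simp only [birkhoffSum]
    rw [← Finset.sum_sub_distrib]
    refine (Finset.abs_sum_le_sum_abs _ _).trans (Finset.sum_le_sum fun i hi => ?_)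
    exact hterm i (Finset.mem_range.mp hi)
  have h3 : ∑ i ∈ Finset.range n, (b (i / N) + b (m - i / N)) ≤
      ∑ i ∈ Finset.range (N * (m + 1)), (b (i / N) + b (m - i / N)) :=
    Finset.sum_le_sum_of_subset_of_nonneg (Finset.range_mono hnm)
      (fun i _ _ => add_nonneg (hb0 _) (hb0 _))
  rw [sum_div_block (fun k => b k + b (m - k)) N (m + 1) hN] at h3
  have h4 : ∑ k ∈ Finset.range (m + 1), b (m - k) = ∑ k ∈ Finset.range (m + 1), b k := by
    have := Finset.sum_range_reflect b (m + 1)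
    rw [← this]
    exact Finset.sum_congr rfl fun k _ => by congr 1
  have h4' : ∑ k ∈ Finset.range (m + 1), (b k + b (m - k)) =
      2 * ∑ k ∈ Finset.range (m + 1), b k := by
    rw [Finset.sum_add_distrib, h4, two_mul]
  rw [h4'] at h3
  have h5 : ∑ k ∈ Finset.range (m + 1), b k ≤ ∑ k ∈ Finset.range (n + 1), b k :=
    Finset.sum_le_sum_of_subset_of_nonneg (Finset.range_mono (by
      have : m ≤ N * m := Nat.le_mul_of_pos_left m (by omega)
      omega)) (fun i _ _ => hb0 _)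
  have h6 : (0 : ℝ) ≤ N := Nat.cast_nonneg N
  have h7 : (N : ℝ) * ∑ k ∈ Finset.range (m + 1), b k ≤ N * ∑ k ∈ Finset.range (n + 1), b k :=
    mul_le_mul_of_nonneg_left h5 h6
  show _ ≤ 2 * (N : ℝ) * ∑ k ∈ Finset.range (n + 1), b k
  linarith

theorem sum_inv_le (n : ℕ) : ∑ k ∈ Finset.range (n + 1), 1 / ((k : ℝ) + 1) ≤
    1 + Real.log ((n : ℝ) + 1) := by
  have h := harmonic_le_one_add_log (n + 1)
  have e : ((harmonic (n + 1) : ℚ) : ℝ) = ∑ k ∈ Finset.range (n + 1), 1 / ((k : ℝ) + 1) := by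
    rw [harmonic]
    push_cast
    exact Finset.sum_congr rfl fun k _ => by rw [one_div]
  rw [e] at h
  push_cast at h
  exact h

/-- A modulus of continuity `κ / |log t|` gives logarithmic distortion. -/
theorem logD_of_mod {f : X ≃ₜ X} {N : ℕ} (hN : 1 ≤ N) {c : ℝ}
    (hc : LP (iterHomeo f N) c) {Λ : ℝ} (hΛ : 1 ≤ Λ)
    (hL : ∀ x y, dist (f x) (f y) ≤ Λ * dist x y) : ∃ η > 0, ∀ (φ : X → ℝ) (B : ℝ),
      (∀ x, |φ x| ≤ B) → ∀ ε > 0,
      (∃ r > 0, ∀ x y, x ≠ y → dist x y < r →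
        |φ x - φ y| * |Real.log (dist x y)| ≤ ε / (2 * N) * Real.log 2 / 2) →
      ∃ C : ℝ, DistB f φ η (fun n => ε * Real.log (n + 1) + C) := by
  obtain ⟨η, hη, hsum⟩ := dist_sum hN hc hΛ hL
  have hc0 := hc.c_pos
  refine ⟨η, hη, fun φ B hB ε hε hφ => ?_⟩
  set K := 2 * c * Λ ^ N with hK
  have hK0 : 0 < K := by positivity
  have hN0 : (0 : ℝ) < N := by exact_mod_cast (by omega : 0 < N)
  have hl2 : 0 < Real.log 2 := Real.log_pos (by norm_num)
  set ε₂ := ε / (2 * N) with hε₂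
  have hε₂0 : 0 < ε₂ := by positivity
  obtain ⟨r, hr, hr2⟩ := hφ
  obtain ⟨k₂, hk₂⟩ := geo_small K hr
  -- choose the threshold
  obtain ⟨k₃, hk₃⟩ := exists_nat_gt ((2 * Real.log K + Real.log 2) / Real.log 2)
  set k₁ := max k₂ k₃ with hk₁
  have hB0 : 0 ≤ B ∨ IsEmpty X := by
    by_cases h : Nonempty X
    · obtain ⟨x⟩ := h
      exact Or.inl ((abs_nonneg _).trans (hB x))
    · exact Or.inr (not_nonempty_iff.mp h)
  rcases hB0 with hB0 | hemp
  swap
  · exact ⟨0, fun n x => (hemp.false x).elim⟩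
  let b : ℕ → ℝ := fun k => if k < k₁ then 2 * B else ε₂ * (1 / ((k : ℝ) + 1))
  have hb0 : ∀ k, 0 ≤ b k := by
    intro k
    show 0 ≤ if k < k₁ then 2 * B else ε₂ * (1 / ((k : ℝ) + 1))
    split_ifs
    · positivity
    · positivity
  have hb : ∀ k x y, dist x y ≤ K * (1 / 2) ^ k → |φ x - φ y| ≤ b k := by
    intro k x y hxy
    show |φ x - φ y| ≤ if k < k₁ then 2 * B else ε₂ * (1 / ((k : ℝ) + 1))
    split_ifs with hk
    · have h1 := hB x
      have h2 := hB y
      have h3 := abs_sub (φ x) (φ y)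
      linarith
    · by_cases hxy' : x = y
      · rw [hxy', sub_self, abs_zero]; positivity
      · have hk2 : k₂ ≤ k := (le_max_left _ _).trans (not_lt.mp hk)
        have hk3 : k₃ ≤ k := (le_max_right _ _).trans (not_lt.mp hk)
        have hdr : dist x y < r := hxy.trans_lt (hk₂ k hk2)
        have h1 := hr2 x y hxy' hdr
        have hd0 : 0 < dist x y := dist_pos.mpr hxy'
        have h2 : Real.log (dist x y) ≤ Real.log K - k * Real.log 2 := by
          have h3 : Real.log (K * (1 / 2) ^ k) = Real.log K - k * Real.log 2 := by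
            rw [Real.log_mul hK0.ne' (by positivity), Real.log_pow, one_div, Real.log_inv]
            ring
          rw [← h3]
          exact Real.log_le_log hd0 hxy
        have h4 : (2 * Real.log K + Real.log 2) < k * Real.log 2 := by
          have : (k₃ : ℝ) ≤ k := by exact_mod_cast hk3
          rw [div_lt_iff₀ hl2] at hk₃
          nlinarith
        have h5 : ((k : ℝ) + 1) * Real.log 2 / 2 ≤ |Real.log (dist x y)| := by
          refine le_trans ?_ (neg_le_abs _)
          linarith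
        have h6 : 0 < ((k : ℝ) + 1) * Real.log 2 / 2 := by positivity
        have h7 : |φ x - φ y| * (((k : ℝ) + 1) * Real.log 2 / 2) ≤ ε₂ * Real.log 2 / 2 :=
          (mul_le_mul_of_nonneg_left h5 (abs_nonneg _)).trans h1
        have h8 : |φ x - φ y| * ((k : ℝ) + 1) ≤ ε₂ := by
          have h9 : |φ x - φ y| * ((k : ℝ) + 1) * (Real.log 2 / 2) ≤ ε₂ * (Real.log 2 / 2) := by
            linarith
          exact le_of_mul_le_mul_right h9 (by positivity)
        rw [mul_one_div, le_div_iff₀ (by positivity)]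
        exact h8
  refine ⟨2 * N * (2 * B * k₁ + ε₂), fun n x y hxy => (hsum φ b hb0 hb n x y hxy).trans ?_⟩
  have h1 : ∑ k ∈ Finset.range (n + 1), b k ≤
      2 * B * k₁ + ε₂ * ∑ k ∈ Finset.range (n + 1), 1 / ((k : ℝ) + 1) := by
    have h2 : ∀ k, b k ≤ (if k < k₁ then 2 * B else 0) + ε₂ * (1 / ((k : ℝ) + 1)) := by
      intro k
      show (if k < k₁ then 2 * B else ε₂ * (1 / ((k : ℝ) + 1))) ≤ _
      have : 0 ≤ ε₂ * (1 / ((k : ℝ) + 1)) := by positivity
      split_ifs <;> linarith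
    refine (Finset.sum_le_sum fun k _ => h2 k).trans ?_
    rw [Finset.sum_add_distrib, ← Finset.mul_sum]
    have h3 : ∑ k ∈ Finset.range (n + 1), (if k < k₁ then 2 * B else 0) ≤ 2 * B * k₁ := by
      rw [← Finset.sum_filter, Finset.sum_const, nsmul_eq_mul, mul_comm]
      have h4 : ((Finset.range (n + 1)).filter (fun k => k < k₁)).card ≤ k₁ := by
        refine (Finset.card_le_card (t := Finset.range k₁) fun k hk => ?_).trans
          (Finset.card_range k₁).le
        rw [Finset.mem_filter] at hk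
        exact Finset.mem_range.mpr hk.2
      have h5 : (((Finset.range (n + 1)).filter (fun k => k < k₁)).card : ℝ) ≤ k₁ := by
        exact_mod_cast h4
      exact mul_le_mul_of_nonneg_left h5 (by positivity)
    linarith
  have h2 := sum_inv_le n
  have h3 : ε₂ * ∑ k ∈ Finset.range (n + 1), 1 / ((k : ℝ) + 1) ≤
      ε₂ * (1 + Real.log ((n : ℝ) + 1)) := mul_le_mul_of_nonneg_left h2 hε₂0.le
  have h4 : 2 * (N : ℝ) * ∑ k ∈ Finset.range (n + 1), b k ≤
      2 * N * (2 * B * k₁ + ε₂ * (1 + Real.log ((n : ℝ) + 1))) :=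
    mul_le_mul_of_nonneg_left (by linarith) (by positivity)
  have h5 : 2 * (N : ℝ) * ε₂ = ε := by rw [hε₂]; field_simp
  show 2 * (N : ℝ) * ∑ k ∈ Finset.range (n + 1), b k ≤ ε * Real.log ((n : ℝ) + 1) + _
  rw [← h5]
  linarith

/-- Hölder functions have bounded distortion. -/
theorem bdd_of_holder {f : X ≃ₜ X} {N : ℕ} (hN : 1 ≤ N) {c : ℝ}
    (hc : LP (iterHomeo f N) c) {Λ : ℝ} (hΛ : 1 ≤ Λ)
    (hL : ∀ x y, dist (f x) (f y) ≤ Λ * dist x y) : ∃ η > 0, ∀ (φ : X → ℝ) (H α : ℝ),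
      0 ≤ H → 0 < α → (∀ x y, |φ x - φ y| ≤ H * dist x y ^ α) →
      ∃ C : ℝ, 0 ≤ C ∧ DistB f φ η (fun _ => C) := by
  obtain ⟨η, hη, hsum⟩ := dist_sum hN hc hΛ hL
  have hc0 := hc.c_pos
  refine ⟨η, hη, fun φ H α hH hα hφ => ?_⟩
  set K := 2 * c * Λ ^ N with hK
  have hK0 : 0 < K := by positivity
  set ρ : ℝ := (1 / 2 : ℝ) ^ α with hρ
  have hρ0 : 0 < ρ := by positivity
  have hρ1 : ρ < 1 := Real.rpow_lt_one (by norm_num) (by norm_num) hα
  have hb0 : ∀ k : ℕ, 0 ≤ H * K ^ α * ρ ^ k := fun k => by positivity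
  have hb : ∀ (k : ℕ) x y, dist x y ≤ K * (1 / 2) ^ k → |φ x - φ y| ≤ H * K ^ α * ρ ^ k := by
    intro k x y hxy
    refine (hφ x y).trans ?_
    have h1 : dist x y ^ α ≤ (K * (1 / 2) ^ k) ^ α := Real.rpow_le_rpow dist_nonneg hxy hα.le
    have h2 : (K * (1 / 2 : ℝ) ^ k) ^ α = K ^ α * ρ ^ k := by
      rw [Real.mul_rpow hK0.le (by positivity), hρ, ← Real.rpow_natCast, ← Real.rpow_natCast,
        ← Real.rpow_mul (by norm_num), ← Real.rpow_mul (by norm_num), mul_comm α]
    rw [h2] at h1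
    calc H * dist x y ^ α ≤ H * (K ^ α * ρ ^ k) := mul_le_mul_of_nonneg_left h1 hH
      _ = _ := by ring
  refine ⟨2 * N * (H * K ^ α * (1 - ρ)⁻¹), ?_, fun n x y hxy =>
    (hsum φ (fun k => H * K ^ α * ρ ^ k) hb0 hb n x y hxy).trans ?_⟩
  · have : 0 < 1 - ρ := by linarith
    positivity
  · show 2 * (N : ℝ) * ∑ k ∈ Finset.range (n + 1), H * K ^ α * ρ ^ k ≤ _
    rw [← Finset.mul_sum]
    have h1 : ∑ k ∈ Finset.range (n + 1), ρ ^ k ≤ (1 - ρ)⁻¹ := by
      rw [← tsum_geometric_of_lt_one hρ0.le hρ1]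
      exact (summable_geometric_of_lt_one hρ0.le hρ1).sum_le_tsum _ (fun k _ => by positivity)
    have h2 : H * K ^ α * ∑ k ∈ Finset.range (n + 1), ρ ^ k ≤ H * K ^ α * (1 - ρ)⁻¹ :=
      mul_le_mul_of_nonneg_left h1 (by positivity)
    exact mul_le_mul_of_nonneg_left h2 (by positivity)

end Pool.Agent.Helper905_AJ
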