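import Pool.Agent.Helper905_AJ.Main
import Pool.Agent.Helper905_AJ.Mod
import Pool.Agent.Helper905_AJ.Chart

set_option autoImplicit false
set_option linter.unusedSectionVars false

open Filter Topology Set Metric MeasureTheory
open scoped Manifold ContDiff

namespace Pool.Agent.Helper905_AJ

open Pool.Agent.H721R2 Pool.Agent.H789R2.AN

/-- `A` is a nonempty closed set, invariant under the homeomorphism `f`, and contains the unstable
leaf of each of its points, i.e. all points that are backward asymptotic to it. -/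
structure UnstableSaturated {X : Type*} [TopologicalSpace X] (f : X ≃ₜ X) (A : Set X) : Prop where
  closed : IsClosed A
  nonempty : A.Nonempty
  inv : ∀ x, f x ∈ A ↔ x ∈ A
  sat : ∀ x ∈ A, ∀ y, Tendsto (fun n : ℕ => (f.symm^[n] x, f.symm^[n] y)) atTop
    (𝓝ˢ (diagonal X)) → y ∈ A

section metric

variable {X : Type*} [MetricSpace X] [CompactSpace X]

theorem tendsto_diag_iff (f : X ≃ₜ X) (x y : X) :
    Tendsto (fun n : ℕ => (f^[n] x, f^[n] y)) atTop (𝓝ˢ (diagonal X)) ↔ WS f x y := by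
  rw [nhdsSet_diagonal_eq_uniformity, tendsto_uniformity_iff_dist_tendsto_zero]
  rfl

theorem UnstableSaturated.isAtt {f : X ≃ₜ X} {A : Set X} (h : UnstableSaturated f A) :
    IsAtt f A :=
  ⟨h.closed, h.nonempty, h.inv, fun x hx y hxy => h.sat x hx y ((tendsto_diag_iff _ x y).mpr hxy)⟩

variable {E : Type*} [NormedAddCommGroup E] [NormedSpace ℝ E]

/-- modulus of continuity `κ / |log t|` in terms of the metric -/
def MetMod (κ : ℝ) (φ : X → ℝ) : Prop :=
  ∃ r > 0, ∀ x y, x ≠ y → dist x y < r → |φ x - φ y| * |Real.log (dist x y)| ≤ κ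

/-- The abstract theorem, both parts. -/
theorem abstract_main [PreconnectedSpace X] [MeasurableSpace X] [BorelSpace X]
    (S : HypSys X E) {f : X ≃ₜ X} {N : ℕ} (hN : 1 ≤ N) (hS : S.g = iterHomeo f N)
    {Λ : ℝ} (hΛ : 1 ≤ Λ) (hL : ∀ x y, dist (f x) (f y) ≤ Λ * dist x y) :
    ∃ κ > 0, ∀ (φ : X → ℝ), Continuous φ → MetMod κ φ →
    ∀ (ν : Measure X) [IsFiniteMeasure ν] [ν.IsOpenPosMeasure], Expands f φ ν →
    ∀ (A : Set X), IsAtt f A →
    (∀ p ∈ A, ∀ n, 1 ≤ n → f^[n] p = p → 0 ≤ birkhoffSum f φ n p) →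
    A = univ ∧ TopTransitive f ∧
      ((∃ H α : ℝ, 0 ≤ H ∧ 0 < α ∧ ∀ x y, |φ x - φ y| ≤ H * dist x y ^ α) →
        (∀ p n, f^[n] p = p → birkhoffSum f φ n p = 0) ∧
        ∃ μ : Measure X, MeasurePreserving f μ μ ∧
          ∃ K : ℝ, ENNReal.ofReal (Real.exp (-K)) • ν ≤ μ ∧ μ ≤ ν) := by
  obtain ⟨c, hc⟩ := exists_LP S
  have hc' : LP (iterHomeo f N) c := by rw [← hS]; exact hc
  obtain ⟨η, hη, hmod⟩ := logD_of_mod hN hc' hΛ hL
  obtain ⟨ε₁, hε₁, hAu⟩ := att_univ S hN hS hη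
  obtain ⟨ε₂, hε₂, hTr⟩ := trans_of_pos S hN hS hη
  obtain ⟨η', hη', hbd⟩ := bdd_of_holder hN hc' hΛ hL
  obtain ⟨L, hLL⟩ := att_lower S hN hS hη'
  have hN0 : (0 : ℝ) < N := by exact_mod_cast (by omega : 0 < N)
  have hl2 : 0 < Real.log 2 := Real.log_pos (by norm_num)
  have hε0 : 0 < min ε₁ ε₂ := lt_min hε₁ hε₂
  refine ⟨min ε₁ ε₂ / (2 * N) * Real.log 2 / 2, by positivity,
    fun φ hφc hφ ν _ _ hν A hA hpos => ?_⟩
  obtain ⟨B, hB⟩ : ∃ B, ∀ x, |φ x| ≤ B := by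
    obtain ⟨B, hB⟩ := (isCompact_univ (X := X)).exists_bound_of_continuousOn hφc.continuousOn
    exact ⟨B, fun x => hB x (mem_univ x)⟩
  obtain ⟨x₁, hx₁⟩ := hA.nonempty
  have hB0 : 0 ≤ B := (abs_nonneg _).trans (hB x₁)
  have hB' : ∀ x, -B ≤ φ x := fun x => (abs_le.mp (hB x)).1
  have hφm : Measurable φ := hφc.measurable
  have hD : LogD f φ η (min ε₁ ε₂) := hmod φ B hB _ hε0 hφ
  have hA1 := hAu φ hφm B hB0 hB' (hD.mono (min_le_left _ _)) ν hν A hA hpos
  have hpos' : ∀ p, ∀ n, 1 ≤ n → f^[n] p = p → 0 ≤ birkhoffSum f φ n p := fun p n hn hp =>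
    hpos p (by rw [hA1]; trivial) n hn hp
  refine ⟨hA1, fun U V hU hUn hV hVn =>
    hTr φ hφm B hB0 hB' (hD.mono (min_le_right _ _)) ν hν hpos' U V hU hUn hV hVn, ?_⟩
  rintro ⟨H, α, hH, hα, hhol⟩
  obtain ⟨C, hC0, hC⟩ := hbd φ H α hH hα hhol
  have h1 := hLL A hA φ B (fun _ => C) hB0 hB' monotone_const (fun _ => hC0) hC hpos
  set K : ℝ := L * (C + N * B) + N * B with hK
  obtain ⟨μ, h2, h3, h4⟩ := exists_invariant (K := K) hφm hν (fun x n => by
    have hn : n = N * (n / N) + n % N := (Nat.div_add_mod n N).symm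
    rw [hn, birkhoffSum_add]
    have h5 := h1 x (by rw [hA1]; trivial) (n / N)
    have h6 := birk_lower f φ hB' (n % N) (f^[N * (n / N)] x)
    have h7 : ((n % N : ℕ) : ℝ) * B ≤ N * B := by
      have : ((n % N : ℕ) : ℝ) ≤ N := by
        exact_mod_cast (Nat.mod_lt _ (by omega)).le
      exact mul_le_mul_of_nonneg_right this hB0
    linarith)
  exact ⟨per_zero (upper_of_inv hφc hν h2 h3 h4) hpos', μ, h2, K, h3, h4⟩

/-- The closure of the union of the unstable leaves through an orbit is unstable saturated. -/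
theorem leaf_closure (S : HypSys X E) {f : X ≃ₜ X} {N : ℕ} (hN : 1 ≤ N)
    (hS : S.g = iterHomeo f N) (x₀ : X) :
    IsAtt f (closure {y | ∃ k : ℕ, WS f.symm (f^[k] x₀) y ∨ WS f.symm (f.symm^[k] x₀) y}) := by
  obtain ⟨c, hc⟩ := exists_LP S
  set T : Set X := {y | ∃ k : ℕ, WS f.symm (f^[k] x₀) y ∨ WS f.symm (f.symm^[k] x₀) y} with hT
  have hsat : ∀ x ∈ T, ∀ y, WS f.symm x y → y ∈ T := by
    rintro x ⟨k, hk | hk⟩ y hxy
    · exact ⟨k, Or.inl (hk.trans hxy)⟩
    · exact ⟨k, Or.inr (hk.trans hxy)⟩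
  have hf : ∀ x y, WS f.symm x y ↔ WS f.symm (f x) (f y) := by
    intro x y
    rw [← WS.iter (g := f.symm) 1 (x := f x)]
    simp
  have hinv : ∀ x, f x ∈ T ↔ x ∈ T := by
    intro x
    constructor
    · rintro ⟨k, hk | hk⟩
      · rcases k with _ | k
        · refine ⟨1, Or.inr ?_⟩
          rw [hf]
          simpa using hk
        · refine ⟨k, Or.inl ?_⟩
          rw [hf, ← Function.iterate_succ_apply' f]
          exact hk
      · refine ⟨k + 1, Or.inr ?_⟩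
        rw [hf, Function.iterate_succ_apply', f.apply_symm_apply]
        exact hk
    · rintro ⟨k, hk | hk⟩
      · refine ⟨k + 1, Or.inl ?_⟩
        rw [Function.iterate_succ_apply', ← hf]
        exact hk
      · rcases k with _ | k
        · refine ⟨1, Or.inl ?_⟩
          rw [Function.iterate_one, ← hf]
          exact hk
        · refine ⟨k, Or.inr ?_⟩
          have h1 : f (f.symm^[k + 1] x₀) = f.symm^[k] x₀ := by
            rw [Function.iterate_succ_apply', f.apply_symm_apply]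
          rw [← h1, ← hf]
          exact hk
  refine ⟨isClosed_closure, ⟨x₀, subset_closure ⟨0, Or.inl (WS.refl _ _)⟩⟩, fun w => ?_, ?_⟩
  · have e1 : f ⁻¹' T = T := by
      ext w
      exact hinv w
    have e2 := f.preimage_closure T
    rw [e1] at e2
    rw [← mem_preimage, e2]
  · intro x hx y hxy
    refine closure_sat hc (S := T) ?_ x hx y ?_
    · intro x hx y hxy
      rw [hS, iterH_symm] at hxy
      exact hsat x hx y ((WS_iterH f.symm hN x y).mp hxy)
    · rw [hS, iterH_symm]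
      exact (WS_iterH f.symm hN x y).mpr hxy

end metric

section man

variable {E : Type*} [NormedAddCommGroup E] [NormedSpace ℝ E] [FiniteDimensional ℝ E]
  {M : Type*} [MetricSpace M] [CompactSpace M] [ChartedSpace E M] [IsManifold 𝓘(ℝ, E) 1 M]
  {F : Type*} [NormedAddCommGroup F] [NormedSpace ℝ F]

/-- a `C¹` self-map is Lipschitz -/
theorem lip_of_C1 {e : M → F} (hiso : ∀ x y, dist x y = ‖e x - e y‖)
    (he : ContMDiff 𝓘(ℝ, E) 𝓘(ℝ, F) 1 e) (hinj : ∀ x, Function.Injective (dm E e x))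
    (f : M → M) (hf : ContMDiff 𝓘(ℝ, E) 𝓘(ℝ, E) 1 f) :
    ∃ Λ : ℝ, 1 ≤ Λ ∧ ∀ x y, dist (f x) (f y) ≤ Λ * dist x y := by
  obtain ⟨K, hK0, r, hr, h⟩ := loc_glob (M := M) (fun K x y => dist (f x) (f y) ≤ K * dist x y)
    (fun K K' x y hKK h => h.trans (mul_le_mul_of_nonneg_right hKK dist_nonneg)) (fun x₀ => by
      obtain ⟨C, hC, W, hW, h⟩ := map_le e he hinj (e ∘ f) (he.comp hf) x₀
      refine ⟨C, W, hW, fun x hx y hy => ?_⟩
      rw [hiso, hiso]
      exact h x hx y hy)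
  obtain ⟨B, hB⟩ : ∃ B : ℝ, ∀ x y : M, dist x y ≤ B := by
    obtain ⟨B, hB⟩ := Metric.isBounded_iff.mp (isCompact_univ (X := M)).isBounded
    exact ⟨B, fun x y => hB (mem_univ x) (mem_univ y)⟩
  by_cases hM : Nonempty M
  swap
  · exact ⟨1, le_rfl, fun x => (hM ⟨x⟩).elim⟩
  obtain ⟨x₁⟩ := hM
  have hB0 : 0 ≤ B := dist_nonneg.trans (hB x₁ x₁)
  have hBr : 0 ≤ B / r := by positivity
  refine ⟨1 + K + B / r, by linarith, fun x y => ?_⟩
  have hd : 0 ≤ dist x y := dist_nonneg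
  rcases lt_or_ge (dist x y) r with h1 | h1
  · refine (h x y h1).trans (mul_le_mul_of_nonneg_right ?_ hd)
    linarith
  · have h2 : B ≤ B / r * dist x y := by
      rw [div_mul_eq_mul_div, le_div_iff₀ hr]
      exact mul_le_mul_of_nonneg_left h1 hB0
    have h3 : B / r * dist x y ≤ (1 + K + B / r) * dist x y :=
      mul_le_mul_of_nonneg_right (by linarith) hd
    exact (hB _ _).trans (h2.trans h3)

/-- the chart modulus condition in terms of the metric -/
theorem logMod_metric {e : M → F} (hiso : ∀ x y, dist x y = ‖e x - e y‖)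
    (he : ContMDiff 𝓘(ℝ, E) 𝓘(ℝ, F) 1 e) (hinj : ∀ x, Function.Injective (dm E e x))
    {φ : M → ℝ} {κ : ℝ} (hφ : LogMod E (κ / 2) φ) : MetMod κ φ := by
  obtain ⟨-, -, r, hr, h⟩ := loc_glob (M := M)
    (fun _ x y => x ≠ y → |φ x - φ y| * |Real.log (dist x y)| ≤ κ)
    (fun _ _ _ _ _ h => h) (fun x₀ => by
      obtain ⟨C, hC, W, hW, hWs, h1⟩ := chart_le e he hinj x₀
      obtain ⟨U, hU, h2⟩ := hφ x₀
      have hC0 : 0 < C := by linarith
      refine ⟨0, W ∩ (U ∩ ball x₀ (1 / (2 * C ^ 2))), inter_mem hW (inter_mem hU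
        (ball_mem_nhds _ (by positivity))), ?_⟩
      rintro x ⟨hxW, hxU, hxb⟩ y ⟨hyW, hyU, hyb⟩ hne
      set d := dist x y with hd
      have hd0 : 0 < d := dist_pos.mpr hne
      have hd1 : d < 1 / C ^ 2 := by
        have h3 : dist x x₀ < 1 / (2 * C ^ 2) := hxb
        have h4 : dist y x₀ < 1 / (2 * C ^ 2) := hyb
        have h5 := dist_triangle_right x y x₀
        have h6 : 1 / (2 * C ^ 2) + 1 / (2 * C ^ 2) = 1 / C ^ 2 := by field_simp; norm_num
        linarith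
      set u := ‖extChartAt 𝓘(ℝ, E) x₀ x - extChartAt 𝓘(ℝ, E) x₀ y‖ with hu
      have hu0 : 0 < u := by
        rw [hu, norm_pos_iff, sub_ne_zero]
        intro heq
        exact hne ((extChartAt 𝓘(ℝ, E) x₀).injOn (hWs hxW) (hWs hyW) heq)
      have hud : u ≤ C * d := by
        have := h1 x hxW y hyW
        rwa [← hiso] at this
      have hlogC : 0 ≤ Real.log C := Real.log_nonneg hC
      have hl1 : Real.log d < -(2 * Real.log C) := by
        have h3 := Real.log_lt_log hd0 hd1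
        rw [one_div, Real.log_inv, Real.log_pow] at h3
        push_cast at h3
        exact h3
      have hl2 : Real.log u ≤ Real.log C + Real.log d := by
        rw [← Real.log_mul hC0.ne' hd0.ne']
        exact Real.log_le_log hu0 hud
      have hl3 : |Real.log d| ≤ 2 * |Real.log u| := by
        rw [abs_of_neg (by linarith), abs_of_neg (by linarith)]
        linarith
      have h3 := h2 x hxU y hyU
      rw [← hu] at h3
      have h4 : |φ x - φ y| * |Real.log d| ≤ |φ x - φ y| * (2 * |Real.log u|) :=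
        mul_le_mul_of_nonneg_left hl3 (abs_nonneg _)
      linarith)
  exact ⟨r, hr, fun x y hne hxy => h x y hxy hne⟩

theorem continuous_of_metMod {φ : M → ℝ} {κ : ℝ} (h : MetMod κ φ) : Continuous φ := by
  obtain ⟨r, hr, h1⟩ := h
  rw [Metric.continuous_iff]
  intro y ε hε
  refine ⟨min r (Real.exp (-(|κ| / ε + 1))), lt_min hr (Real.exp_pos _), fun x hxy => ?_⟩
  by_cases hne : x = y
  · rw [hne, dist_self]; exact hε
  · have h2 := h1 x y hne (hxy.trans_le (min_le_left _ _))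
    have hd0 : 0 < dist x y := dist_pos.mpr hne
    have hκε : 0 ≤ |κ| / ε := by positivity
    have h3 : Real.log (dist x y) ≤ -(|κ| / ε + 1) := by
      have := Real.log_le_log hd0 (hxy.trans_le (min_le_right _ _)).le
      rwa [Real.log_exp] at this
    have h4 : |κ| / ε + 1 ≤ |Real.log (dist x y)| := by
      have := neg_le_abs (Real.log (dist x y))
      linarith
    rw [Real.dist_eq]
    have h5 : |φ x - φ y| * (|κ| / ε + 1) ≤ |κ| :=
      (mul_le_mul_of_nonneg_left h4 (abs_nonneg _)).trans (h2.trans (le_abs_self κ))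
    by_contra hcon
    rw [not_lt] at hcon
    have h6 : ε * (|κ| / ε + 1) ≤ |φ x - φ y| * (|κ| / ε + 1) :=
      mul_le_mul_of_nonneg_right hcon (by linarith)
    have h7 : ε * (|κ| / ε + 1) = |κ| + ε := by field_simp
    linarith

/-- the chart Hölder condition in terms of the metric -/
theorem holder_metric {e : M → F} (hiso : ∀ x y, dist x y = ‖e x - e y‖)
    (he : ContMDiff 𝓘(ℝ, E) 𝓘(ℝ, F) 1 e) (hinj : ∀ x, Function.Injective (dm E e x))
    {φ : M → ℝ} (hc : Continuous φ) (hφ : IsHolder E φ) :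
    ∃ H α : ℝ, 0 ≤ H ∧ 0 < α ∧ ∀ x y, |φ x - φ y| ≤ H * dist x y ^ α := by
  obtain ⟨α, hα, hφ⟩ := hφ
  obtain ⟨B, hB⟩ : ∃ B, ∀ x, |φ x| ≤ B := by
    obtain ⟨B, hB⟩ := (isCompact_univ (X := M)).exists_bound_of_continuousOn hc.continuousOn
    exact ⟨B, fun x => hB x (mem_univ x)⟩
  obtain ⟨K, hK0, r, hr, h⟩ := loc_glob (M := M)
    (fun K x y => |φ x - φ y| ≤ K * dist x y ^ α)
    (fun K K' x y hKK h => h.trans (mul_le_mul_of_nonneg_right hKK (by positivity)))
    (fun x₀ => by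
      obtain ⟨C, hC, W, hW, hWs, h1⟩ := chart_le e he hinj x₀
      obtain ⟨C', U, hU, h2⟩ := hφ x₀
      have hC0 : 0 < C := by linarith
      refine ⟨|C'| * C ^ α, W ∩ U, inter_mem hW hU, ?_⟩
      rintro x ⟨hxW, hxU⟩ y ⟨hyW, hyU⟩
      have h3 := h2 x hxU y hyU
      have h4 := h1 x hxW y hyW
      rw [← hiso] at h4
      have h5 : ‖extChartAt 𝓘(ℝ, E) x₀ x - extChartAt 𝓘(ℝ, E) x₀ y‖ ^ α ≤
          (C * dist x y) ^ α := Real.rpow_le_rpow (norm_nonneg _) h4 hα.le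
      rw [Real.mul_rpow hC0.le dist_nonneg] at h5
      refine h3.trans ?_
      calc C' * ‖extChartAt 𝓘(ℝ, E) x₀ x - extChartAt 𝓘(ℝ, E) x₀ y‖ ^ α
          ≤ |C'| * ‖extChartAt 𝓘(ℝ, E) x₀ x - extChartAt 𝓘(ℝ, E) x₀ y‖ ^ α :=
            mul_le_mul_of_nonneg_right (le_abs_self _) (by positivity)
        _ ≤ |C'| * (C ^ α * dist x y ^ α) := mul_le_mul_of_nonneg_left h5 (abs_nonneg _)
        _ = _ := by ring)
  by_cases hM : Nonempty M
  swap
  · exact ⟨0, α, le_rfl, hα, fun x => (hM ⟨x⟩).elim⟩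
  obtain ⟨x₁⟩ := hM
  have hB0 : 0 ≤ B := (abs_nonneg _).trans (hB x₁)
  refine ⟨K + 2 * B / r ^ α, α, by positivity, hα, fun x y => ?_⟩
  have hd : 0 ≤ dist x y ^ α := by positivity
  have hrα : 0 < r ^ α := Real.rpow_pos_of_pos hr α
  rcases lt_or_ge (dist x y) r with h1 | h1
  · refine (h x y h1).trans (mul_le_mul_of_nonneg_right ?_ hd)
    have : 0 ≤ 2 * B / r ^ α := by positivity
    linarith
  · have h2 : r ^ α ≤ dist x y ^ α := Real.rpow_le_rpow hr.le h1 hα.le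
    have h3 : 2 * B ≤ 2 * B / r ^ α * dist x y ^ α := by
      rw [div_mul_eq_mul_div, le_div_iff₀ hrα]
      exact mul_le_mul_of_nonneg_left h2 (by positivity)
    have h4 : |φ x - φ y| ≤ 2 * B := by
      have h5 := hB x
      have h6 := hB y
      have h7 := abs_sub (φ x) (φ y)
      linarith
    have h5 : 0 ≤ K * dist x y ^ α := by positivity
    rw [add_mul]
    linarith

end man

section top

variable {E : Type*} [NormedAddCommGroup E] [NormedSpace ℝ E] [FiniteDimensional ℝ E]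
  {M : Type*} [TopologicalSpace M] [T2Space M] [CompactSpace M] [ConnectedSpace M]
  [ChartedSpace E M] [IsManifold 𝓘(ℝ, E) ∞ M]

/-- **Main theorem.** -/
theorem man_main (f : Diffeomorph 𝓘(ℝ, E) 𝓘(ℝ, E) M M 1)
    (Es Eu : ∀ x : M, Submodule ℝ (TangentSpace 𝓘(ℝ, E) x)) (hf : IsAnosov f Es Eu)
    [MeasurableSpace M] [BorelSpace M] : ∃ κ > 0, ∀ (φ : M → ℝ), LogMod E κ φ →
    ∀ (ν : Measure M) [IsFiniteMeasure ν] [ν.IsOpenPosMeasure], Expands f φ ν →
    ∀ (A : Set M), UnstableSaturated f.toHomeomorph A →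
    (∀ p ∈ A, ∀ n : ℕ, 1 ≤ n → f^[n] p = p → 0 ≤ ∑ i ∈ Finset.range n, φ (f^[i] p)) →
    A = univ ∧ TopTransitive f ∧ (IsHolder E φ →
      (∀ (p : M) (n : ℕ), f^[n] p = p → ∑ i ∈ Finset.range n, φ (f^[i] p) = 0) ∧
      ∃ μ : Measure M, MeasurePreserving f μ μ ∧
        ∃ K : ℝ, ENNReal.ofReal (Real.exp (-K)) • ν ≤ μ ∧ μ ≤ ν) := by
  obtain ⟨m, ee, hee, hemb, hinje⟩ :=
    exists_embedding_euclidean_of_compact (I := 𝓘(ℝ, E)) (M := M)
  let _ : MetricSpace M := hemb.isEmbedding.comapMetricSpace ee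
  have hiso : ∀ x y : M, dist x y = ‖ee x - ee y‖ := fun x y => dist_eq_norm (ee x) (ee y)
  have he1 : ContMDiff 𝓘(ℝ, E) (𝓡 m) 1 ee := hee.of_le (by simp)
  obtain ⟨N, hN, S, hS⟩ := exists_sysN hiso he1 hinje f Es Eu hf
  obtain ⟨Λ, hΛ, hL⟩ := lip_of_C1 hiso he1 hinje f f.contMDiff
  obtain ⟨κ, hκ, hmain⟩ := abstract_main S (f := f.toHomeomorph) hN hS hΛ hL
  refine ⟨κ / 2, half_pos hκ, fun φ hφ ν _ _ hν A hA hper => ?_⟩
  have hm := logMod_metric hiso he1 hinje hφ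
  have hc := continuous_of_metMod hm
  obtain ⟨h1, h2, h3⟩ := hmain φ hc hm ν hν A hA.isAtt hper
  exact ⟨h1, h2, fun hh => h3 (holder_metric hiso he1 hinje hc hh)⟩

/-- The closure of the union of the unstable leaves through the orbit of a point is an example. -/
theorem man_leaf (f : Diffeomorph 𝓘(ℝ, E) 𝓘(ℝ, E) M M 1)
    (Es Eu : ∀ x : M, Submodule ℝ (TangentSpace 𝓘(ℝ, E) x)) (hf : IsAnosov f Es Eu) (x₀ : M) :
    UnstableSaturated f.toHomeomorph (closure {y | ∃ x : M,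
      (∃ k : ℕ, x = f^[k] x₀ ∨ f^[k] x = x₀) ∧
      Tendsto (fun n : ℕ => (f.symm^[n] x, f.symm^[n] y)) atTop (𝓝ˢ (diagonal M))}) := by
  obtain ⟨m, ee, hee, hemb, hinje⟩ :=
    exists_embedding_euclidean_of_compact (I := 𝓘(ℝ, E)) (M := M)
  let _ : MetricSpace M := hemb.isEmbedding.comapMetricSpace ee
  have hiso : ∀ x y : M, dist x y = ‖ee x - ee y‖ := fun x y => dist_eq_norm (ee x) (ee y)
  have he1 : ContMDiff 𝓘(ℝ, E) (𝓡 m) 1 ee := hee.of_le (by simp)
  obtain ⟨N, hN, S, hS⟩ := exists_sysN hiso he1 hinje f Es Eu hf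
  have h1 := leaf_closure S hN hS x₀
  have h2 : {y | ∃ k : ℕ, WS f.toHomeomorph.symm (f.toHomeomorph^[k] x₀) y ∨
      WS f.toHomeomorph.symm (f.toHomeomorph.symm^[k] x₀) y} = {y | ∃ x : M,
      (∃ k : ℕ, x = f^[k] x₀ ∨ f^[k] x = x₀) ∧
      Tendsto (fun n : ℕ => (f.symm^[n] x, f.symm^[n] y)) atTop (𝓝ˢ (diagonal M))} := by
    ext y
    simp only [Set.mem_ofPred_eq]
    constructor
    · rintro ⟨k, hk | hk⟩
      · exact ⟨_, ⟨k, Or.inl rfl⟩, (tendsto_diag_iff f.toHomeomorph.symm _ _).mpr hk⟩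
      · refine ⟨_, ⟨k, Or.inr (iterR f.toHomeomorph k x₀)⟩,
          (tendsto_diag_iff f.toHomeomorph.symm _ _).mpr hk⟩
    · rintro ⟨x, ⟨k, rfl | hk⟩, hy⟩
      · exact ⟨k, Or.inl ((tendsto_diag_iff f.toHomeomorph.symm _ _).mp hy)⟩
      · refine ⟨k, Or.inr ?_⟩
        have h3 : f.toHomeomorph.symm^[k] x₀ = x := by
          rw [← hk]; exact iterL f.toHomeomorph k x
        rw [h3]
        exact (tendsto_diag_iff f.toHomeomorph.symm _ _).mp hy
  rw [← h2]
  exact ⟨h1.closed, h1.nonempty, h1.inv, fun x hx y hxy =>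
    h1.sat x hx y ((tendsto_diag_iff f.toHomeomorph.symm x y).mp hxy)⟩

end top

end Pool.Agent.Helper905_AJ
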